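import Pool.Agent.Q179.HS.Quad

/-!
# Quadratic forms in signs: outside of half of the sign vectors no value is popular
-/

set_option autoImplicit false

namespace Pool.Agent.Q179.HS

open Finset Function Pool.Agent.H832R2.JR

variable {N : ℕ}

/-- Let a quadratic form be linear in a set of `k` variables, all of them occurring in mixed
terms. Outside of a set `B` of at most a proportion `1/2 + δ` of the sign vectors it takes every value
with probability at most `(δ k)^(-1/2)`. -/
theorem bad_lin (A : Fin N → Fin N → ℤ) (hA : ∀ i j, A i j = A j i) (p : Fin N → Prop)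
    [DecidablePred p] (hD : ∀ i, p i → ∀ j, p j → A i j = 0) (hD2 : ∀ i, p i → ∃ j, ¬ p j ∧ A i j ≠ 0)
    (hpos : 0 < Fintype.card {k // p k}) (δ : ℝ) (hδ0 : 0 < δ) (hδ1 : δ ≤ 1 / 2) :
    ∃ B : Finset (Fin N → Bool), (B.card : ℝ) ≤ (1 / 2 + δ) * 2 ^ N ∧
      ∀ c, ((univ.filter fun w => w ∉ B ∧ Q A w = c).card : ℝ) ≤
        2 ^ N / √(δ * (Fintype.card {k // p k} : ℝ)) := by
  let e := Equiv.piEquivPiSubtypeProd (fun k : Fin N => p k) (fun _ => Bool)
  let lin : ({k // ¬ p k} → Bool) → {k // p k} → ℤ := fun y k => ∑ j : {k // ¬ p k},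
    A k j * sgn (y j)
  let K : ({k // ¬ p k} → Bool) → ℤ := fun y => ∑ i : {k // ¬ p k}, ∑ j : {k // ¬ p k},
    A i j * (sgn (y i) * sgn (y j))
  have hQ : ∀ w, Q A w = K (e w).2 + ∑ k : {k // p k}, sgn ((e w).1 k) * (2 * lin (e w).2 k) := by
    intro w
    have e1 : ∀ k, (e w).1 k = w k := fun k => rfl
    have e2 : ∀ k, (e w).2 k = w k := fun k => rfl
    have h1 : ∀ i, ∑ j, A i j * (sgn (w i) * sgn (w j)) =
        (∑ j : {k // p k}, A i j * (sgn (w i) * sgn (w j))) +
        ∑ j : {k // ¬ p k}, A i j * (sgn (w i) * sgn (w j)) := fun i =>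
      (Fintype.sum_subtype_add_sum_subtype (fun k => p k)
        (fun j => A i j * (sgn (w i) * sgn (w j)))).symm
    unfold Q
    rw [← Fintype.sum_subtype_add_sum_subtype (fun k => p k)]
    simp only [h1, sum_add_distrib]
    have h2 : ∑ i : {k // p k}, ∑ j : {k // p k}, A i j * (sgn (w i) * sgn (w j)) = 0 :=
      sum_eq_zero fun i _ => sum_eq_zero fun j _ => by rw [hD i i.2 j j.2, zero_mul]
    have h3 : ∑ i : {k // ¬ p k}, ∑ j : {k // p k}, A i j * (sgn (w i) * sgn (w j)) =
        ∑ i : {k // p k}, ∑ j : {k // ¬ p k}, A i j * (sgn (w i) * sgn (w j)) := by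
      rw [sum_comm]
      refine sum_congr rfl fun i _ => sum_congr rfl fun j _ => ?_
      rw [hA j i]
      ring
    rw [h2, h3]
    have h4 : ∀ k : {k // p k}, sgn ((e w).1 k) * (2 * lin (e w).2 k) =
        (∑ j : {k // ¬ p k}, A k j * (sgn (w k) * sgn (w j))) +
        ∑ j : {k // ¬ p k}, A k j * (sgn (w k) * sgn (w j)) := by
      intro k
      simp only [lin, e1, e2]
      rw [← sum_add_distrib, mul_sum, mul_sum]
      refine sum_congr rfl fun j _ => ?_
      ring
    simp only [h4, sum_add_distrib, K, e2]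
    ring
  set k := Fintype.card {k // p k} with hk
  have hck : Fintype.card {k // p k} = k := rfl
  have hcN : k + Fintype.card {k // ¬ p k} = N := by
    rw [← hck]
    have h := Fintype.card_subtype_compl (fun k => p k)
    have h2 := Fintype.card_subtype_le (fun k => p k)
    rw [Fintype.card_fin] at h h2
    omega
  set M := Fintype.card {k // ¬ p k} with hM
  have hk0 : (0 : ℝ) < k := by exact_mod_cast hpos
  let r : ({k // ¬ p k} → Bool) → ℕ := fun y =>
    (univ.filter fun k : {k // p k} => 2 * lin y k ≠ 0).card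
  have hrk : ∀ y, r y ≤ k := by
    intro y
    rw [← hck]
    exact card_le_univ _
  have h2k : Fintype.card ({k // p k} → Bool) = 2 ^ k := by
    rw [Fintype.card_fun, Fintype.card_bool, hck]
  have h2M : Fintype.card ({k // ¬ p k} → Bool) = 2 ^ M := by
    rw [Fintype.card_fun, Fintype.card_bool]
  -- the average of r
  have havg : (k : ℝ) * 2 ^ M ≤ 2 * ∑ y : {k // ¬ p k} → Bool, (r y : ℝ) := by
    have h1 : ∑ y : {k // ¬ p k} → Bool, r y =
        ∑ i : {k // p k}, (univ.filter fun y : {k // ¬ p k} → Bool => 2 * lin y i ≠ 0).card := by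
      simp only [r, card_filter]
      rw [sum_comm]
    have h2 : ∀ i : {k // p k}, 2 ^ M ≤ 2 * (univ.filter fun y : {k // ¬ p k} → Bool =>
        2 * lin y i ≠ 0).card := by
      intro i
      obtain ⟨j, hj, hij⟩ := hD2 i i.2
      have h3 := half_of_involution (univ.filter fun y : {k // ¬ p k} → Bool => 2 * lin y i = 0)
        (fun y => update y ⟨j, hj⟩ (!y ⟨j, hj⟩)) (by intro x; simp) (by
          intro y hy hy'
          simp only [mem_filter, mem_univ, true_and, mul_eq_zero, OfNat.ofNat_ne_zero, false_or] at hy hy'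
          have h5 : lin (update y ⟨j, hj⟩ (!y ⟨j, hj⟩)) i - lin y i =
              - 2 * (A i j * sgn (y ⟨j, hj⟩)) := by
            simp only [lin]
            rw [← sum_sub_distrib, sum_eq_single ⟨j, hj⟩]
            · rw [update_self, sgn_not]; ring
            · intro b _ hb
              rw [update_of_ne hb]
              ring
            · simp
          rw [hy, hy'] at h5
          clear hy hy'
          have h6 : sgn (y ⟨j, hj⟩) ≠ 0 := by cases y ⟨j, hj⟩ <;> simp [sgn]
          have h7 : A i j * sgn (y ⟨j, hj⟩) ≠ 0 := mul_ne_zero hij h6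
          omega)
      have h4 : (univ.filter fun y : {k // ¬ p k} → Bool => 2 * lin y i = 0).card +
          (univ.filter fun y : {k // ¬ p k} → Bool => 2 * lin y i ≠ 0).card = 2 ^ M := by
        rw [card_filter_add_card_filter_not, card_univ, Fintype.card_fun, Fintype.card_bool]
      have h3' : 2 * (univ.filter fun y : {k // ¬ p k} → Bool => 2 * lin y i = 0).card ≤ 2 ^ M := by
        refine h3.trans (le_of_eq ?_)
        rw [Fintype.card_fun, Fintype.card_bool]
      omega
    have h5 : k * 2 ^ M ≤ 2 * ∑ y : {k // ¬ p k} → Bool, r y := by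
      rw [h1, mul_sum]
      calc k * 2 ^ M = ∑ i : {k // p k}, 2 ^ M := by
            rw [sum_const, card_univ, hck, smul_eq_mul]
        _ ≤ _ := sum_le_sum fun i _ => h2 i
    exact_mod_cast h5
  let S : Finset ({k // ¬ p k} → Bool) := univ.filter fun y => (r y : ℝ) < δ * k
  refine ⟨univ.filter fun w => (e w).2 ∈ S, ?_, ?_⟩
  · -- the size of the bad set
    have h1 : (univ.filter fun w => (e w).2 ∈ S).card = 2 ^ k * S.card := by
      have h2 : (univ.filter fun w => (e w).2 ∈ S).card =
          ((univ : Finset ({k // p k} → Bool)) ×ˢ S).card := by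
        refine card_equiv e ?_
        intro w
        simp only [mem_filter, mem_univ, true_and, mem_product]
      rw [h2, card_product, card_univ, h2k]
    rw [h1]
    push_cast
    have h3 : ∑ y : {k // ¬ p k} → Bool, (r y : ℝ) ≤ δ * k * S.card + k * (2 ^ M - S.card) := by
      rw [← sum_filter_add_sum_filter_not univ (fun y => (r y : ℝ) < δ * k)]
      refine add_le_add ?_ ?_
      · calc ∑ y ∈ univ.filter (fun y => (r y : ℝ) < δ * k), (r y : ℝ) ≤
              ∑ y ∈ univ.filter (fun y => (r y : ℝ) < δ * k), δ * k :=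
              sum_le_sum fun y hy => (mem_filter.1 hy).2.le
          _ = δ * k * S.card := by
              rw [sum_const, nsmul_eq_mul, mul_comm]
      · calc ∑ y ∈ univ.filter (fun y => ¬ (r y : ℝ) < δ * k), (r y : ℝ) ≤
              ∑ y ∈ univ.filter (fun y => ¬ (r y : ℝ) < δ * k), (k : ℝ) :=
              sum_le_sum fun y _ => by exact_mod_cast hrk y
          _ = k * (2 ^ M - S.card) := by
              rw [sum_const, nsmul_eq_mul, mul_comm]
              congr 1
              have h4 : S.card + (univ.filter (fun y => ¬ (r y : ℝ) < δ * k)).card = 2 ^ M := by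
                rw [card_filter_add_card_filter_not, card_univ, h2M]
              have h5 : (S.card : ℝ) + ((univ.filter (fun y => ¬ (r y : ℝ) < δ * k)).card : ℝ) =
                  2 ^ M := by exact_mod_cast h4
              linarith
    have h6 : (2 : ℝ) ^ M ≤ 2 * (δ * S.card + (2 ^ M - S.card)) := by
      have h7 : (k : ℝ) * 2 ^ M ≤ k * (2 * (δ * S.card + (2 ^ M - S.card))) := by
        calc (k : ℝ) * 2 ^ M ≤ 2 * ∑ y : {k // ¬ p k} → Bool, (r y : ℝ) := havg
          _ ≤ 2 * (δ * k * S.card + k * (2 ^ M - S.card)) := by linarith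
          _ = _ := by ring
      exact le_of_mul_le_mul_left h7 hk0
    have h8 : (S.card : ℝ) ≤ (1 / 2 + δ) * 2 ^ M := by
      have h9 : 2 * (1 - δ) * (S.card : ℝ) ≤ 2 ^ M := by linarith
      have h10 : (0 : ℝ) ≤ S.card := by positivity
      have h11 : (S.card : ℝ) ≤ (1 / 2 + δ) * (2 * (1 - δ) * S.card) := by
        have h12 : (1 / 2 + δ) * (2 * (1 - δ) * (S.card : ℝ)) - S.card =
            S.card * (δ * (1 - 2 * δ)) := by ring
        have h13 : 0 ≤ (S.card : ℝ) * (δ * (1 - 2 * δ)) :=
          mul_nonneg h10 (mul_nonneg hδ0.le (by linarith))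
        linarith
      refine h11.trans ?_
      exact mul_le_mul_of_nonneg_left h9 (by linarith)
    calc (2 : ℝ) ^ k * S.card ≤ 2 ^ k * ((1 / 2 + δ) * 2 ^ M) :=
          mul_le_mul_of_nonneg_left h8 (by positivity)
      _ = (1 / 2 + δ) * 2 ^ N := by
          rw [← hcN, pow_add]
          ring
  · -- the values outside of the bad set
    intro c
    have hcard : (univ.filter fun w => w ∉ (univ.filter fun w => (e w).2 ∈ S) ∧ Q A w = c).card =
        ∑ y ∈ univ.filter (fun y => y ∉ S),
      (univ.filter fun x : {k // p k} → Bool => ∑ k, sgn (x k) * (2 * lin y k) = c - K y).card := by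
      have h1 : (univ.filter fun w => w ∉ (univ.filter fun w => (e w).2 ∈ S) ∧ Q A w = c).card =
          (univ.filter fun p : ({k // p k} → Bool) × ({k // ¬ p k} → Bool) =>
            p.2 ∉ S ∧ ∑ k, sgn (p.1 k) * (2 * lin p.2 k) = c - K p.2).card := by
        refine card_equiv e ?_
        intro w
        simp only [mem_filter, mem_univ, true_and]
        rw [hQ w]
        refine and_congr_right fun _ => ?_
        constructor <;> intro h <;> linarith
      rw [h1, card_filter, Fintype.sum_prod_type_right, sum_filter]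
      refine sum_congr rfl fun y _ => ?_
      rw [card_filter]
      by_cases hy : y ∈ S
      · simp [hy]
      · simp [hy]
    rw [hcard]
    push_cast
    have hfib : ∀ y ∈ univ.filter (fun y => y ∉ S), ((univ.filter fun x : {k // p k} → Bool =>
        ∑ k, sgn (x k) * (2 * lin y k) = c - K y).card : ℝ) ≤ 2 ^ k / √(δ * k) := by
      intro y hy
      have hy1 : δ * k ≤ r y := by
        have h2 := (mem_filter.1 hy).2
        simp only [S, mem_filter, mem_univ, true_and, not_lt] at h2
        exact h2
      have h1 : ((univ.filter fun x : {k // p k} → Bool =>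
          ∑ k, sgn (x k) * (2 * lin y k) = c - K y).card : ℝ) * √(r y : ℝ) ≤ 2 ^ k := by
        have := LO (fun k : {k // p k} => 2 * lin y k) (c - K y)
        rwa [hck] at this
      have h3 : 0 < √(δ * k) := Real.sqrt_pos.2 (by positivity)
      rw [le_div_iff₀ h3]
      refine le_trans (mul_le_mul_of_nonneg_left (Real.sqrt_le_sqrt hy1) (by positivity)) h1
    calc _ ≤ ∑ y ∈ univ.filter (fun y => y ∉ S), (2 : ℝ) ^ k / √(δ * k) := sum_le_sum hfib
      _ = ((univ.filter (fun y => y ∉ S)).card : ℝ) * (2 ^ k / √(δ * k)) := by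
          rw [sum_const, nsmul_eq_mul]
      _ ≤ 2 ^ M * (2 ^ k / √(δ * k)) := by
          have h5 : (univ.filter (fun y => y ∉ S)).card ≤ 2 ^ M := (card_le_univ _).trans_eq h2M
          have h6 : ((univ.filter (fun y => y ∉ S)).card : ℝ) ≤ 2 ^ M := by exact_mod_cast h5
          have h7 : (0 : ℝ) ≤ 2 ^ k / √(δ * k) := by positivity
          exact mul_le_mul_of_nonneg_right h6 h7
      _ = 2 ^ N / √(δ * k) := by
          rw [← hcN, pow_add]
          ring

end Pool.Agent.Q179.HS
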