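import Pool.Agent.Q179.HS.Pair

/-!
# A random diagram with a given shadow against a fixed diagram
-/

set_option autoImplicit false

namespace Pool.Agent.Q179.HS

open Finset Function LaurentPolynomial Pool.Agent.H832R2.JR Pool.Agent.H832R3.VJ

variable {N : ℕ}

theorem mom_of_not (G : GaussWord N) (e : Fin N → Bool) (Y : Dia) (w : Fin N → Bool)
    (h : ¬ Separated 2 (Pool.Agent.W642.RV.dia G e w) Y) : mom G w = moment 2 Y.D.fPoly :=
  Pool.Agent.W642.RV.rho_of_not_separated Pool.Agent.W337.RV.fpoly G e w _ h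

/-- one of the four diagrams with changes at two crossings whose chords cross is separated from `Y` -/
theorem fixed_square (G : GaussWord N) (e : Fin N → Bool) (Y : Dia) (i j : Fin N)
    (hij : Crosses G i j) (w : Fin N → Bool) :
    Separated 2 (Pool.Agent.W642.RV.dia G e w) Y ∨
    Separated 2 (Pool.Agent.W642.RV.dia G e (flip i w)) Y ∨
    Separated 2 (Pool.Agent.W642.RV.dia G e (flip j w)) Y ∨
    Separated 2 (Pool.Agent.W642.RV.dia G e (flip i (flip j w))) Y := by
  by_contra hcon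
  push Not at hcon
  obtain ⟨h1, h2, h3, h4⟩ := hcon
  have e1 := mom_of_not G e Y _ h1
  have e2 := mom_of_not G e Y _ h2
  have e3 := mom_of_not G e Y _ h3
  have e4 := mom_of_not G e Y _ h4
  obtain ⟨K, hK⟩ := second_moment G i
  have f1 := hK w
  have f2 := hK (flip i w)
  have f3 := hK (flip j w)
  have f4 := hK (flip i (flip j w))
  unfold mom at e1 e2 e3 e4
  have hne : i ≠ j := by rintro rfl; exact not_crosses_self G i hij
  have h5 := second_diff (adjm G) (adjm_symm G) i j hne w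
  have h6 : adjm G i j = 1 := by unfold adjm; rw [if_pos hij]
  rw [h6] at h5
  have g1 : sgn (w i) * sgn (w j) ≠ 0 := by
    cases w i <;> cases w j <;> simp [sgn]
  have h7 : Q (adjm G) w - Q (adjm G) (flip i w) - Q (adjm G) (flip j w) +
      Q (adjm G) (flip i (flip j w)) = 0 := by omega
  rw [h7] at h5
  apply g1
  omega

open Classical in
theorem fixed_three (G : GaussWord N) (e : Fin N → Bool) (Y : Dia) (h : ∃ i j, Crosses G i j) :
    4 * Nat.card {w : Fin N → Bool // ¬ Separated 2 (Pool.Agent.W642.RV.dia G e w) Y} ≤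
      3 * 2 ^ N := by
  obtain ⟨i, j, hij⟩ := h
  have h1 := mom_three G i j hij (moment 2 Y.D.fPoly)
  rw [card_bool] at h1
  refine le_trans (Nat.mul_le_mul_left _ ?_) h1
  rw [Nat.card_eq_fintype_card, Fintype.card_subtype]
  refine card_le_card fun w hw => ?_
  rw [mem_filter] at hw ⊢
  exact ⟨mem_univ _, mom_of_not G e Y w hw.2⟩

open Classical in
theorem fixed_half (G : GaussWord N) (e : Fin N → Bool) (Y : Dia) (n : ℕ) (hn0 : 0 < n)
    (hn : n ≤ Nat.card {i : Fin N // ∃ j, Crosses G i j}) :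
    (Nat.card {w : Fin N → Bool // ¬ Separated 2 (Pool.Agent.W642.RV.dia G e w) Y} : ℝ) ≤
      (1 / 2 + 8 * (n : ℝ) ^ (-(1 / 4 : ℝ))) * 2 ^ N := by
  obtain ⟨B, hB1, hB2⟩ := bad_gauss G n hn0 hn
  have hi : Nonempty {i : Fin N // ∃ j, Crosses G i j} := by
    by_contra hne
    rw [not_nonempty_iff] at hne
    rw [Nat.card_eq_zero.2 (Or.inl hne)] at hn
    omega
  obtain ⟨c', hc'⟩ := mom_fibre G hi.some.1 (fun w => w ∉ B) (moment 2 Y.D.fPoly)
  have h1 : Nat.card {w : Fin N → Bool // ¬ Separated 2 (Pool.Agent.W642.RV.dia G e w) Y} ≤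
      B.card + (univ.filter fun w => w ∉ B ∧ Q (adjm G) w = c').card := by
    rw [Nat.card_eq_fintype_card, Fintype.card_subtype]
    refine le_trans (card_le_card (t := B ∪ (univ.filter fun w => w ∉ B ∧ Q (adjm G) w = c'))
      fun w hw => ?_) (card_union_le _ _)
    rw [mem_filter] at hw
    rw [mem_union, mem_filter]
    by_cases hwB : w ∈ B
    · exact Or.inl hwB
    · exact Or.inr ⟨mem_univ _, hwB, hc' w hwB (mom_of_not G e Y w hw.2)⟩
  have h2 : (Nat.card {w : Fin N → Bool // ¬ Separated 2 (Pool.Agent.W642.RV.dia G e w) Y} : ℝ) ≤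
      (B.card : ℝ) + ((univ.filter fun w => w ∉ B ∧ Q (adjm G) w = c').card : ℝ) := by
    exact_mod_cast h1
  have h3 := hB2 c'
  calc _ ≤ (1 / 2 + 4 * (n : ℝ) ^ (-(1 / 4 : ℝ))) * 2 ^ N +
        4 * (n : ℝ) ^ (-(1 / 4 : ℝ)) * 2 ^ N := by linarith
    _ = _ := by ring

end Pool.Agent.Q179.HS
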