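import Pool.Agent.H832R2.JR.Moment

/-!
# Loops of states: isolated chords and parallel neighbouring chords
-/

set_option autoImplicit false

namespace Pool.Agent.Q179.HS

open Finset Function LaurentPolynomial Pool.Agent.H832R2.JR

variable {N : ℕ}

/-- all half edges at the crossing `c` are joined -/
def allJoined (G : GaussWord N) (t : Fin N → Fin 3) (c : Fin N) : Half N → Half N → Prop :=
  fun u v => gen (arcFun G) (smoothOff t c) u v ∨ (u.1.1 = c ∧ v.1.1 = c)

theorem smooth_update_of_ne (t : Fin N → Fin 3) (c : Fin N) (k : Fin 3) (u : Half N)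
    (h : u.1.1 ≠ c) : smooth (update t c k) u = smoothOff t c u := by
  unfold smoothOff
  rw [if_neg h]
  unfold smooth
  rw [update_of_ne h]

theorem merged_card (G : GaussWord N) (t : Fin N → Fin 3) (c : Fin N) (k : Fin 3) (a b : Half N)
    (ha : a.1.1 = c) (hb : b.1.1 = c)
    (hall : ∀ u v : Half N, u.1.1 = c → v.1.1 = c →
      Quot.mk (addPair (gen (arcFun G) (smooth (update t c k))) a b) u =
      Quot.mk (addPair (gen (arcFun G) (smooth (update t c k))) a b) v) :
    Nat.card (Quot (addPair (gen (arcFun G) (smooth (update t c k))) a b)) =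
      Nat.card (Quot (allJoined G t c)) := by
  refine card_quot_congr _ _ ?_ ?_
  · rintro u v ((rfl | rfl) | ⟨rfl, rfl⟩)
    · exact Quot.sound (Or.inl (Or.inl rfl))
    · by_cases hu : u.1.1 = c
      · exact Quot.sound (Or.inr ⟨hu, by rw [smooth_fst]; exact hu⟩)
      · rw [smooth_update_of_ne t c k u hu]
        exact Quot.sound (Or.inl (Or.inr rfl))
    · exact Quot.sound (Or.inr ⟨ha, hb⟩)
  · rintro u v ((rfl | rfl) | ⟨hu, hv⟩)
    · exact Quot.sound (Or.inl (Or.inl rfl))
    · by_cases hu : u.1.1 = c
      · unfold smoothOff
        rw [if_pos hu]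
      · rw [← smooth_update_of_ne t c k u hu]
        exact Quot.sound (Or.inl (Or.inr rfl))
    · exact hall u v hu hv

theorem card_addPair_le {H : Type} [Finite H] (r : H → H → Prop) (x y : H) :
    Nat.card (Quot r) ≤ Nat.card (Quot (addPair r x y)) + 1 := by
  by_cases h : Quot.mk r x = Quot.mk r y
  · rw [card_addPair_same r x y h]; omega
  · rw [card_addPair_diff r x y h]

/-- the two half edges which are joined with a merging pair in the state `k` -/
def mpt (c : Fin N) (k : Fin 3) : Half N := if k = 2 then ((c, false), true) else ((c, true), false)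

theorem all_same (G : GaussWord N) (t : Fin N → Fin 3) (c : Fin N) (k : Fin 3) (u v : Half N)
    (hu : u.1.1 = c) (hv : v.1.1 = c) :
    Quot.mk (addPair (gen (arcFun G) (smooth (update t c k))) ((c, false), false) (mpt c k)) u =
    Quot.mk (addPair (gen (arcFun G) (smooth (update t c k))) ((c, false), false) (mpt c k)) v := by
  set r := addPair (gen (arcFun G) (smooth (update t c k))) ((c, false), false) (mpt c k) with hr
  have hs : ∀ x : Half N, Quot.mk r x = Quot.mk r (smooth (update t c k) x) := fun x =>
    Quot.sound (Or.inl (Or.inr rfl))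
  have hp : Quot.mk r ((c, false), false) = Quot.mk r (mpt c k) := Quot.sound (Or.inr ⟨rfl, rfl⟩)
  have key : ∀ x : Half N, x.1.1 = c → Quot.mk r x = Quot.mk r ((c, false), false) := by
    rintro ⟨⟨d, b⟩, e⟩ hd
    have hd' : d = c := hd
    subst hd'
    have s1 := hs ((d, false), false)
    have s2 := hs ((d, true), false)
    have s3 := hs ((d, false), true)
    have s4 := hs ((d, true), true)
    simp only [smooth, update_self] at s1 s2 s3 s4
    fin_cases k
    · simp [mpt] at hp s1 s2 s3 s4
      cases b <;> cases e
      · rfl
      · exact s1.symm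
      · exact hp.symm
      · exact s2.symm.trans hp.symm
    · simp [mpt] at hp s1 s2 s3 s4
      cases b <;> cases e
      · rfl
      · exact s2.symm.trans hp.symm
      · exact hp.symm
      · exact s1.symm
    · simp [mpt] at hp s1 s2 s3 s4
      cases b <;> cases e
      · rfl
      · exact hp.symm
      · exact s1.symm
      · exact s3.symm.trans hp.symm
  rw [key u hu, key v hv]

/-- if the two strands at a crossing in the state `k` belong to different curves, then the other
states have one curve less -/
theorem sep (G : GaussWord N) (t : Fin N → Fin 3) (c : Fin N) (k : Fin 3) (f : Half N → Bool)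
    (h1 : ∀ x, f (arcFun G x) = f x) (h2 : ∀ x, f (smooth (update t c k) x) = f x)
    (h3 : f ((c, false), false) ≠ f (mpt c k)) (k' : Fin 3) (hk : k' ≠ k) :
    L G (update t c k) = L G (update t c k') + 1 := by
  have hpc : ∀ k, (mpt c k : Half N).1.1 = c := by intro k; unfold mpt; split_ifs <;> rfl
  have hm : ∀ k, Nat.card (Quot (addPair (gen (arcFun G) (smooth (update t c k)))
      ((c, false), false) (mpt c k))) = Nat.card (Quot (allJoined G t c)) := fun k =>
    merged_card G t c k _ _ rfl (hpc k) (all_same G t c k)
  have h4 : ∀ a b, gen (arcFun G) (smooth (update t c k)) a b → f a = f b := by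
    rintro a b (rfl | rfl)
    · exact (h1 a).symm
    · exact (h2 a).symm
  have h5 : Quot.mk (gen (arcFun G) (smooth (update t c k))) ((c, false), false) ≠
      Quot.mk _ (mpt c k) := by
    intro h
    exact h3 (congrArg (Quot.lift f h4) h)
  have h6 : Nat.card (Quot (allJoined G t c)) + 1 = L G (update t c k) := by
    rw [← hm k]
    exact card_addPair_diff _ _ _ h5
  have h7 : ∀ k', L G (update t c k') ≤ L G (update t c k) := by
    intro k'
    rw [← h6, ← hm k']
    exact card_addPair_le _ _ _
  obtain ⟨n, h⟩ := three_term G t c
  have e0 := h7 0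
  have e1 := h7 1
  have e2 := h7 2
  fin_cases k <;> fin_cases k' <;> simp at hk e0 e1 e2 ⊢ <;> omega

/-- a chord which crosses no chord which is smoothed -/
theorem isolated (G : GaussWord N) (t : Fin N → Fin 3) (c : Fin N)
    (h : ∀ d, d ≠ c → t d ≠ 0 → ¬ Crosses G c d) (k' : Fin 3) (hk : k' ≠ 1) :
    L G (update t c 1) = L G (update t c k') + 1 := by
  refine sep G t c 1 (chi G c) (chi_arc G c) ?_ ?_ k' hk
  · rintro ⟨⟨d, b⟩, e⟩
    by_cases hd : d = c
    · subst hd
      simp only [smooth, update_self]
      simpa using chi_self_or G d b e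
    · simp only [smooth, update_of_ne hd]
      by_cases h0 : t d = 0
      · simp only [h0, if_true]
        exact chi_pass G c d hd b e
      · have h1 := (chi_other G c d hd b e).2 (h d hd h0)
        have h2 := chi_pass G c d hd (!b) e
        rw [if_neg h0]
        split_ifs
        · rw [h2, h1]
        · exact h1
  · have e1 := chi_self_pass G c false false
    have e2 := chi_self_or G c false true
    simp only [mpt, Bool.not_false, Bool.not_true] at e1 e2 ⊢
    simp only [show (1 : Fin 3) ≠ 2 by decide, if_false]
    rw [e2, e1]
    cases chi G c ((c, false), false) <;> simp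

theorem L_laminar (G : GaussWord N) (i : Fin N) : ∀ (n : ℕ) (t : Fin N → Fin 3),
    (univ.filter fun c => t c ≠ 0).card = n →
    (∀ c d, c ≠ d → t c ≠ 0 → t d ≠ 0 → ¬ Crosses G c d) →
    L G t = 1 + (univ.filter fun c => t c = 1).card := by
  intro n
  induction n with
  | zero =>
    intro t ht _
    rw [card_eq_zero, filter_eq_empty_iff] at ht
    have h0 : t = fun _ => 0 := by
      funext c
      have := ht (mem_univ c)
      rwa [not_not] at this
    rw [h0, L_zero G i]
    simp
  | succ n ih =>
    intro t ht hc
    have hpos : 0 < (univ.filter fun c => t c ≠ 0).card := by omega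
    obtain ⟨c, hcm⟩ := card_pos.1 hpos
    rw [mem_filter] at hcm
    have hfil : (univ.filter fun d => (update t c 0) d ≠ 0) = (univ.filter fun d => t d ≠ 0).erase c := by
      ext d
      by_cases hd : d = c
      · subst hd; simp
      · simp [hd, update_of_ne hd]
    have h1 := ih (update t c 0) (by
      rw [hfil, card_erase_of_mem (by rw [mem_filter]; exact hcm), ht]
      rfl) (by
        intro x y hxy hx hy
        by_cases h1 : x = c
        · subst h1; simp at hx
        · by_cases h2 : y = c
          · subst h2; simp at hy
          · rw [update_of_ne h1] at hx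
            rw [update_of_ne h2] at hy
            exact hc x y hxy hx hy)
    have hiso := isolated G t c (fun d hd h0 => hc c d (Ne.symm hd) hcm.2 h0)
    have e0 := hiso 0 (by decide)
    have e2 := hiso 2 (by decide)
    by_cases h1c : t c = 1
    · have ht' : update t c 1 = t := by rw [← h1c, update_eq_self]
      rw [ht'] at e0
      have hf : (univ.filter fun d => t d = 1) = insert c (univ.filter fun d => (update t c 0) d = 1) := by
        ext d
        by_cases hd : d = c
        · subst hd; simp [h1c]
        · simp [hd, update_of_ne hd]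
      have hn : c ∉ (univ.filter fun d => (update t c 0) d = 1) := by simp
      rw [e0, h1, hf, card_insert_of_notMem hn]
      ring
    · have h2c : t c = 2 := by
        have h0 := hcm.2
        revert h0 h1c
        generalize t c = x
        revert x
        decide
      have ht' : update t c 2 = t := by rw [← h2c, update_eq_self]
      rw [ht'] at e2
      have hf : (univ.filter fun d => t d = 1) = (univ.filter fun d => (update t c 0) d = 1) := by
        ext d
        by_cases hd : d = c
        · subst hd; simp [h2c]
        · simp [update_of_ne hd]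
      rw [hf]
      omega

/-- the crossings `a` and `b` are passed one immediately after the other, both times `a` first -/
def Parallel (G : GaussWord N) (a b : Fin N) : Prop := ∃ s : Bool, ∀ x, next G (a, x) = (b, xor s x)

/-- the half edges between `a` and `b` -/
def inner (a b : Fin N) (x : Half N) : Bool :=
  (decide (x.1.1 = a) && x.2) || (decide (x.1.1 = b) && !x.2)

theorem inner_arc (G : GaussWord N) (a b : Fin N) (h : Parallel G a b) (x : Half N) :
    inner a b (arcFun G x) = inner a b x := by
  obtain ⟨s, h⟩ := h
  have h1 : ∀ p, (next G p).1 = b → p.1 = a := by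
    rintro p hp
    obtain ⟨q, hq⟩ : ∃ q, next G p = (b, xor s q) := ⟨xor s (next G p).2, by
      rw [← Bool.xor_assoc, Bool.xor_self, Bool.false_xor]
      exact Prod.ext hp rfl⟩
    rw [← h q] at hq
    rw [(next G).injective hq]
  have h2 : ∀ p, ((next G).symm p).1 = a ↔ p.1 = b := by
    intro p
    constructor
    · intro hp
      have : p = next G (a, ((next G).symm p).2) := by
        rw [← hp]
        simp
      rw [this, h]
    · intro hp
      exact h1 _ (by rw [Equiv.apply_symm_apply]; exact hp)
  rcases x with ⟨p, _ | _⟩
  · simp only [arcFun, inner, Bool.and_false, Bool.and_true, Bool.or_false, Bool.false_or,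
      Bool.not_false, Bool.not_true]
    rw [decide_eq_decide]
    exact h2 p
  · simp only [arcFun, inner, Bool.and_false, Bool.and_true, Bool.or_false, Bool.false_or,
      Bool.not_false, Bool.not_true]
    rw [decide_eq_decide]
    constructor
    · exact h1 p
    · intro hp
      have : p = (a, p.2) := by rw [← hp]
      rw [this, h]

theorem inner_smooth (a b : Fin N) (t : Fin N → Fin 3) (ha : t a = 2) (hb : t b = 2)
    (x : Half N) : inner a b (smooth t x) = inner a b x := by
  rcases x with ⟨⟨c, y⟩, e⟩
  by_cases h1 : c = a
  · subst h1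
    simp [smooth, ha, inner]
  · by_cases h2 : c = b
    · subst h2
      simp [smooth, hb, inner]
    · have h3 : ((smooth t ((c, y), e)).1.1) = c := smooth_fst t _
      simp [inner, h1, h2, h3]

theorem par_a (G : GaussWord N) (a b : Fin N) (hab : a ≠ b) (h : Parallel G a b)
    (t : Fin N → Fin 3) (hb : t b = 2) (k' : Fin 3) (hk : k' ≠ 2) :
    L G (update t a 2) = L G (update t a k') + 1 := by
  refine sep G t a 2 (inner a b) (inner_arc G a b h) ?_ ?_ k' hk
  · refine inner_smooth a b _ (update_self ..) ?_
    rw [update_of_ne hab.symm]
    exact hb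
  · simp [mpt, inner, hab]

theorem par_b (G : GaussWord N) (a b : Fin N) (hab : a ≠ b) (h : Parallel G a b)
    (t : Fin N → Fin 3) (ha : t a = 2) (k' : Fin 3) (hk : k' ≠ 2) :
    L G (update t b 2) = L G (update t b k') + 1 := by
  refine sep G t b 2 (inner a b) (inner_arc G a b h) ?_ ?_ k' hk
  · refine inner_smooth a b _ ?_ (update_self ..)
    rw [update_of_ne hab]
    exact ha
  · simp [mpt, inner, hab.symm]

/-- exchanging the two arcs between `a` and `b` -/
def exch (a b : Fin N) (x : Half N) : Half N :=
  if inner a b x = true then ((x.1.1, !x.1.2), x.2) else x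

theorem exch_exch (a b : Fin N) (x : Half N) : exch a b (exch a b x) = x := by
  rcases x with ⟨⟨c, y⟩, e⟩
  by_cases h : inner a b ((c, y), e) = true
  · have h' : inner a b ((c, !y), e) = true := h
    simp [exch, h, h']
  · simp [exch, h]

theorem par_swap (G : GaussWord N) (a b : Fin N) (hab : a ≠ b) (h : Parallel G a b)
    (t : Fin N → Fin 3) :
    L G (update (update t a 1) b 1) = L G (update (update t a 0) b 0) := by
  set t1 := update (update t a 1) b 1 with ht1
  set t0 := update (update t a 0) b 0 with ht0
  have a1 : t1 a = 1 := by rw [ht1, update_of_ne hab, update_self]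
  have a0 : t0 a = 0 := by rw [ht0, update_of_ne hab, update_self]
  have b1 : t1 b = 1 := by rw [ht1, update_self]
  have b0 : t0 b = 0 := by rw [ht0, update_self]
  have c10 : ∀ c, c ≠ a → c ≠ b → t1 c = t0 c := by
    intro c h1 h2
    rw [ht1, ht0, update_of_ne h2, update_of_ne h1, update_of_ne h2, update_of_ne h1]
  have hS : ∀ x, exch a b (smooth t1 x) = smooth t0 (exch a b x) := by
    rintro ⟨⟨c, y⟩, e⟩
    by_cases h1 : c = a
    · subst h1
      cases e <;> simp [exch, inner, smooth, a1, a0, hab]
    · by_cases h2 : c = b
      · subst h2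
        cases e <;> simp [exch, inner, smooth, b1, b0, hab.symm]
      · have h3 : ∀ z : Half N, z.1.1 = c → exch a b z = z := by
          intro z hz
          simp [exch, inner, hz, h1, h2]
        rw [h3 _ (smooth_fst _ _), h3 _ rfl]
        simp only [smooth, c10 c h1 h2]
  have hA : ∀ x, exch a b (arcFun G x) = arcFun G (exch a b x) := by
    intro x
    obtain ⟨s, hs⟩ := h
    by_cases hx : inner a b x = true
    · have hx' : inner a b (arcFun G x) = true := by rw [inner_arc G a b ⟨s, hs⟩]; exact hx
      rcases x with ⟨⟨c, y⟩, e⟩
      cases e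
      · have hc : c = b := by simpa [inner] using hx
        subst hc
        have e1 : ∀ y, (next G).symm (c, y) = (a, xor s y) := by
          intro y
          rw [Equiv.symm_apply_eq, hs, ← Bool.xor_assoc, Bool.xor_self, Bool.false_xor]
        simp only [exch, hx, if_true, arcFun, e1]
        simp [inner]
      · have hc : c = a := by simpa [inner, hab] using hx
        subst hc
        simp only [exch, hx, if_true, arcFun, hs]
        simp [inner]
    · have hx' : ¬ inner a b (arcFun G x) = true := by rw [inner_arc G a b ⟨s, hs⟩]; exact hx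
      simp only [exch, if_neg hx, if_neg hx']
  unfold L
  refine Nat.card_congr ?_
  refine ⟨Quot.map (exch a b) ?_, Quot.map (exch a b) ?_, ?_, ?_⟩
  · rintro u v (rfl | rfl)
    · exact Or.inl (hA u)
    · exact Or.inr (hS u)
  · rintro u v (rfl | rfl)
    · exact Or.inl (hA u)
    · right
      have := hS (exch a b u)
      rw [exch_exch] at this
      rw [← this, exch_exch]
  · rintro ⟨u⟩
    exact congrArg (Quot.mk _) (exch_exch a b u)
  · rintro ⟨u⟩
    exact congrArg (Quot.mk _) (exch_exch a b u)

end Pool.Agent.Q179.HS
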