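import Pool.Agent.H832R2.JR.Decouple

/-!
# Small quadratic forms in signs: the bounds 3/4 and 1/2 + o(1)
-/

set_option autoImplicit false

namespace Pool.Agent.Q179.HS

open Finset Function Pool.Agent.H832R2.JR

variable {N : ℕ}

theorem sgn_sq (b : Bool) : sgn b * sgn b = 1 := by cases b <;> rfl

theorem sgn_not (b : Bool) : sgn (!b) = - sgn b := by cases b <;> rfl

/-- changing the sign with number `i` -/
def flip (i : Fin N) (w : Fin N → Bool) : Fin N → Bool := update w i (!w i)

theorem flip_flip (i : Fin N) (w : Fin N → Bool) : flip i (flip i w) = w := by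
  unfold flip
  simp

theorem sgn_flip (i : Fin N) (w : Fin N → Bool) (k : Fin N) :
    sgn (flip i w k) = (if k = i then -1 else 1) * sgn (w k) := by
  unfold flip
  by_cases h : k = i
  · subst h
    rw [update_self, sgn_not, if_pos rfl]
    ring
  · rw [update_of_ne h, if_neg h, one_mul]

/-- the second difference of the quadratic form -/
theorem second_diff (A : Fin N → Fin N → ℤ) (hA : ∀ i j, A i j = A j i) (i j : Fin N) (hij : i ≠ j)
    (w : Fin N → Bool) :
    Q A w - Q A (flip i w) - Q A (flip j w) + Q A (flip i (flip j w)) =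
      8 * (A i j * (sgn (w i) * sgn (w j))) := by
  unfold Q
  rw [← sum_sub_distrib, ← sum_sub_distrib, ← sum_add_distrib]
  have h1 : ∀ k, (((∑ l, A k l * (sgn (w k) * sgn (w l))) - ∑ l, A k l *
      (sgn (flip i w k) * sgn (flip i w l))) - ∑ l, A k l *
      (sgn (flip j w k) * sgn (flip j w l))) + ∑ l, A k l *
      (sgn (flip i (flip j w) k) * sgn (flip i (flip j w) l)) =
      ∑ l, ((if k = i ∧ l = j then 4 * (A i j * (sgn (w i) * sgn (w j))) else 0) +
        (if k = j ∧ l = i then 4 * (A i j * (sgn (w i) * sgn (w j))) else 0)) := by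
    intro k
    rw [← sum_sub_distrib, ← sum_sub_distrib, ← sum_add_distrib]
    refine sum_congr rfl fun l _ => ?_
    simp only [sgn_flip]
    have hji := hA j i
    by_cases hki : k = i
    · subst hki
      by_cases hlj : l = j
      · subst hlj
        simp [hij, hij.symm]
        ring
      · by_cases hlk : l = k
        · subst hlk
          simp [hij]
        · simp [hij, hlj, hlk]
    · by_cases hkj : k = j
      · subst hkj
        by_cases hli : l = i
        · subst hli
          simp [hij, hki, hji]
          ring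
        · by_cases hlk : l = k
          · subst hlk
            simp [hij.symm]
          · simp [hij.symm, hli, hlk]
      · by_cases hli : l = i
        · subst hli
          simp [hij, hki, hkj]
        · by_cases hlj : l = j
          · subst hlj
            simp [hij.symm, hki, hkj]
          · simp [hki, hkj, hli, hlj]
            try ring
  rw [sum_congr rfl (fun k _ => h1 k)]
  simp only [sum_add_distrib]
  have h2 : ∀ (p q : Fin N) (x : ℤ), ∑ k, ∑ l, (if k = p ∧ l = q then x else 0) = x := by
    intro p q x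
    rw [sum_eq_single p (by
      intro b _ hb
      refine sum_eq_zero fun l _ => ?_
      rw [if_neg (fun h => hb h.1)]) (by simp)]
    rw [sum_eq_single q (by
      intro b _ hb
      rw [if_neg (fun h => hb h.2)]) (by simp)]
    simp
  rw [h2, h2]
  ring

/-- a quadratic form with a coefficient which is not zero takes every value with probability at
most `3/4` -/
theorem three_quarters (A : Fin N → Fin N → ℤ) (hA : ∀ i j, A i j = A j i) (i j : Fin N)
    (hij : i ≠ j) (h : A i j ≠ 0) (c : ℤ) :
    4 * (univ.filter fun w => Q A w = c).card ≤ 3 * 2 ^ N := by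
  classical
  have hb : ∀ p : Fin N, ∑ w : Fin N → Bool, (if Q A (flip p w) = c then 1 else 0) =
      ∑ w : Fin N → Bool, (if Q A w = c then 1 else 0) := fun p =>
    Equiv.sum_comp (Involutive.toPerm (flip p) (flip_flip p))
      (fun w => if Q A w = c then 1 else 0)
  have hb2 : ∑ w : Fin N → Bool, (if Q A (flip i (flip j w)) = c then 1 else 0) =
      ∑ w : Fin N → Bool, (if Q A w = c then 1 else 0) := by
    rw [← hb i]
    exact Equiv.sum_comp (Involutive.toPerm (flip j) (flip_flip j))
      (fun w => if Q A (flip i w) = c then 1 else 0)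
  have h1 : (univ.filter fun w => Q A w = c).card =
      ∑ w : Fin N → Bool, (if Q A w = c then 1 else 0) := by
    rw [card_filter]
  have h2 : 4 * (univ.filter fun w => Q A w = c).card = ∑ w : Fin N → Bool,
      ((if Q A w = c then 1 else 0) + (if Q A (flip i w) = c then 1 else 0) +
        (if Q A (flip j w) = c then 1 else 0) + (if Q A (flip i (flip j w)) = c then 1 else 0)) := by
    rw [sum_add_distrib, sum_add_distrib, sum_add_distrib, hb, hb, hb2, h1]
    ring
  rw [h2]
  calc _ ≤ ∑ w : Fin N → Bool, 3 := by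
        refine sum_le_sum fun w _ => ?_
        have h3 := second_diff A hA i j hij w
        have h4 : (8 : ℤ) * (A i j * (sgn (w i) * sgn (w j))) ≠ 0 := by
          have e1 : sgn (w i) ≠ 0 := by cases w i <;> simp [sgn]
          have e2 : sgn (w j) ≠ 0 := by cases w j <;> simp [sgn]
          exact mul_ne_zero (by norm_num) (mul_ne_zero h (mul_ne_zero e1 e2))
        by_cases a1 : Q A w = c <;> by_cases a2 : Q A (flip i w) = c <;>
          by_cases a3 : Q A (flip j w) = c <;> by_cases a4 : Q A (flip i (flip j w)) = c <;>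
          simp [a1, a2, a3, a4]
        rw [a1, a2, a3, a4] at h3
        exact h4 (by rw [← h3]; ring)
    _ = 3 * 2 ^ N := by
        rw [sum_const, card_univ, Fintype.card_fun, Fintype.card_bool, Fintype.card_fin, smul_eq_mul]
        ring

/-- if a set contains at most one of `x` and `φ x`, it has at most half of the elements -/
theorem half_of_involution {α : Type} [Fintype α] [DecidableEq α] (S : Finset α) (φ : α → α)
    (hφ : ∀ x, φ (φ x) = x) (h : ∀ x ∈ S, φ x ∉ S) : 2 * S.card ≤ Fintype.card α := by
  have hinj : Injective φ := (Involutive.injective hφ)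
  have h1 : Disjoint S (S.image φ) := by
    rw [disjoint_left]
    intro x hx hx'
    rw [mem_image] at hx'
    obtain ⟨y, hy, rfl⟩ := hx'
    exact h y hy hx
  have h2 : (S ∪ S.image φ).card ≤ Fintype.card α := card_le_univ _
  rw [card_union_of_disjoint h1, card_image_of_injective S hinj] at h2
  omega

theorem g_bound (k r : ℕ) (hr : r ≤ k) (P : ℝ) (hP : P ≤ 1) (hP2 : P * √(r : ℝ) ≤ 1) (hk : 0 < k) :
    P ≤ 1 - r / k + 2 / √(k : ℝ) := by
  have hk' : (0 : ℝ) < k := by exact_mod_cast hk
  set b := √(k : ℝ) with hb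
  have hb0 : 0 < b := Real.sqrt_pos.2 hk'
  have hb2 : b ^ 2 = k := Real.sq_sqrt hk'.le
  rcases Nat.eq_zero_or_pos r with rfl | hr0
  · have : (0 : ℝ) ≤ 2 / b := by positivity
    simp
    linarith
  · set a := √(r : ℝ) with ha
    have ha1 : 1 ≤ a := by
      rw [ha, Real.one_le_sqrt]
      exact_mod_cast hr0
    have ha2 : a ^ 2 = r := Real.sq_sqrt (by positivity)
    have hab : a ≤ b := Real.sqrt_le_sqrt (by exact_mod_cast hr)
    have h1 : P ≤ 1 / a := by
      rw [le_div_iff₀ (by linarith)]
      exact hP2
    refine h1.trans ?_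
    rw [← ha2, ← hb2]
    have h2 : 1 - a ^ 2 / b ^ 2 + 2 / b - 1 / a = (a * b ^ 2 - a ^ 3 + 2 * a * b - b ^ 2) / (a * b ^ 2) := by
      field_simp
      try ring
    have h3 : 0 ≤ a * b ^ 2 - a ^ 3 + 2 * a * b - b ^ 2 := by
      obtain ⟨c, hbc⟩ : ∃ c, b = a + c := ⟨b - a, by ring⟩
      have hc : 0 ≤ c := by linarith
      rw [hbc]
      have h4 : a * (a + c) ^ 2 - a ^ 3 + 2 * a * (a + c) - (a + c) ^ 2 =
          a ^ 2 * (1 + 2 * c) + c ^ 2 * (a - 1) := by ring
      rw [h4]
      have : 0 ≤ a - 1 := by linarith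
      positivity
    have h5 : 0 ≤ 1 - a ^ 2 / b ^ 2 + 2 / b - 1 / a := by
      rw [h2]
      positivity
    linarith

/-- a quadratic form which is linear in a set `D` of at least `k` variables, all of them occurring in
mixed terms, takes every value with probability at most `1/2 + 2/√k` -/
theorem half_bound (A : Fin N → Fin N → ℤ) (hA : ∀ i j, A i j = A j i) (p : Fin N → Prop)
    [DecidablePred p] (hD : ∀ i, p i → ∀ j, p j → A i j = 0) (hD2 : ∀ i, p i → ∃ j, ¬ p j ∧ A i j ≠ 0)
    (hpos : 0 < Fintype.card {k // p k})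
    (c : ℤ) :
    ((univ.filter fun w => Q A w = c).card : ℝ) ≤ (1 / 2 + 2 / √(Fintype.card {k // p k} : ℝ)) * 2 ^ N := by
  let e := Equiv.piEquivPiSubtypeProd (fun k : Fin N => p k) (fun _ => Bool)
  let lin : ({k // ¬ p k} → Bool) → {k // p k} → ℤ := fun y k => ∑ j : {k // ¬ p k},
    A k j * sgn (y j)
  let K : ({k // ¬ p k} → Bool) → ℤ := fun y => ∑ i : {k // ¬ p k}, ∑ j : {k // ¬ p k},
    A i j * (sgn (y i) * sgn (y j))
  have hQ : ∀ w, Q A w = K (e w).2 + ∑ k : {k // p k}, sgn ((e w).1 k) * (2 * lin (e w).2 k) := by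
    intro w
    have e1 : ∀ k, (e w).1 k = w k := fun k => rfl
    have e2 : ∀ k, (e w).2 k = w k := fun k => rfl
    have h1 : ∀ i, ∑ j, A i j * (sgn (w i) * sgn (w j)) =
        (∑ j : {k // p k}, A i j * (sgn (w i) * sgn (w j))) +
        ∑ j : {k // ¬ p k}, A i j * (sgn (w i) * sgn (w j)) := fun i =>
      (Fintype.sum_subtype_add_sum_subtype (fun k => p k)
        (fun j => A i j * (sgn (w i) * sgn (w j)))).symm
    unfold Q
    rw [← Fintype.sum_subtype_add_sum_subtype (fun k => p k)]
    simp only [h1, sum_add_distrib]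
    have h2 : ∑ i : {k // p k}, ∑ j : {k // p k}, A i j * (sgn (w i) * sgn (w j)) = 0 :=
      sum_eq_zero fun i _ => sum_eq_zero fun j _ => by rw [hD i i.2 j j.2, zero_mul]
    have h3 : ∑ i : {k // ¬ p k}, ∑ j : {k // p k}, A i j * (sgn (w i) * sgn (w j)) =
        ∑ i : {k // p k}, ∑ j : {k // ¬ p k}, A i j * (sgn (w i) * sgn (w j)) := by
      rw [sum_comm]
      refine sum_congr rfl fun i _ => sum_congr rfl fun j _ => ?_
      rw [hA j i]
      ring
    rw [h2, h3]
    have h4 : ∀ k : {k // p k}, sgn ((e w).1 k) * (2 * lin (e w).2 k) =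
        (∑ j : {k // ¬ p k}, A k j * (sgn (w k) * sgn (w j))) +
        ∑ j : {k // ¬ p k}, A k j * (sgn (w k) * sgn (w j)) := by
      intro k
      simp only [lin, e1, e2]
      rw [← sum_add_distrib, mul_sum, mul_sum]
      refine sum_congr rfl fun j _ => ?_
      ring
    simp only [h4, sum_add_distrib, K, e2]
    ring
  -- fibres
  have hcard : (univ.filter fun w => Q A w = c).card = ∑ y : {k // ¬ p k} → Bool,
      (univ.filter fun x : {k // p k} → Bool => ∑ k, sgn (x k) * (2 * lin y k) = c - K y).card := by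
    have h1 : (univ.filter fun w => Q A w = c).card =
        (univ.filter fun p : ({k // p k} → Bool) × ({k // ¬ p k} → Bool) =>
          ∑ k, sgn (p.1 k) * (2 * lin p.2 k) = c - K p.2).card := by
      refine card_equiv e ?_
      intro w
      simp only [mem_filter, mem_univ, true_and]
      rw [hQ w]
      constructor <;> intro h <;> linarith
    rw [h1, card_filter, Fintype.sum_prod_type_right]
    refine sum_congr rfl fun y _ => ?_
    rw [card_filter]
  set k := Fintype.card {k // p k} with hk
  have hck : Fintype.card {k // p k} = k := rfl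
  have hcN : k + Fintype.card {k // ¬ p k} = N := by
    rw [← hck]
    have h := Fintype.card_subtype_compl (fun k => p k)
    have h2 := Fintype.card_subtype_le (fun k => p k)
    rw [Fintype.card_fin] at h h2
    omega
  set M := Fintype.card {k // ¬ p k} with hM
  let r : ({k // ¬ p k} → Bool) → ℕ := fun y =>
    (univ.filter fun k : {k // p k} => 2 * lin y k ≠ 0).card
  have hrk : ∀ y, r y ≤ k := by
    intro y
    rw [← hck]
    exact card_le_univ _
  have hfib : ∀ y, ((univ.filter fun x : {k // p k} → Bool =>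
      ∑ k, sgn (x k) * (2 * lin y k) = c - K y).card : ℝ) ≤
        (1 - r y / k + 2 / √(k : ℝ)) * 2 ^ k := by
    intro y
    set P := ((univ.filter fun x : {k // p k} → Bool =>
      ∑ k, sgn (x k) * (2 * lin y k) = c - K y).card : ℝ) with hP
    have h1 : P * √(r y : ℝ) ≤ 2 ^ k := by
      have := LO (fun k : {k // p k} => 2 * lin y k) (c - K y)
      rwa [hck] at this
    have h2 : P ≤ 2 ^ k := by
      rw [hP]
      have : (univ.filter fun x : {k // p k} → Bool =>
        ∑ k, sgn (x k) * (2 * lin y k) = c - K y).card ≤ 2 ^ k := by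
        refine (card_le_univ _).trans ?_
        rw [Fintype.card_fun, Fintype.card_bool, hck]
      exact_mod_cast this
    have h3 : (0 : ℝ) < 2 ^ k := by positivity
    have h4 := g_bound k (r y) (hrk y) (P / 2 ^ k) ((div_le_one h3).2 h2)
      (by rw [div_mul_eq_mul_div, div_le_one h3]; exact h1) hpos
    rwa [div_le_iff₀ h3] at h4
  -- the average of r
  have havg : (k : ℝ) * 2 ^ M ≤ 2 * ∑ y : {k // ¬ p k} → Bool, (r y : ℝ) := by
    have h1 : ∑ y : {k // ¬ p k} → Bool, r y =
        ∑ i : {k // p k}, (univ.filter fun y : {k // ¬ p k} → Bool => 2 * lin y i ≠ 0).card := by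
      simp only [r, card_filter]
      rw [sum_comm]
    have h2 : ∀ i : {k // p k}, 2 ^ M ≤ 2 * (univ.filter fun y : {k // ¬ p k} → Bool =>
        2 * lin y i ≠ 0).card := by
      intro i
      obtain ⟨j, hj, hij⟩ := hD2 i i.2
      have h3 := half_of_involution (univ.filter fun y : {k // ¬ p k} → Bool => 2 * lin y i = 0)
        (fun y => update y ⟨j, hj⟩ (!y ⟨j, hj⟩)) (by intro x; simp) (by
          intro y hy hy'
          simp only [mem_filter, mem_univ, true_and, mul_eq_zero, OfNat.ofNat_ne_zero, false_or] at hy hy'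
          have h5 : lin (update y ⟨j, hj⟩ (!y ⟨j, hj⟩)) i - lin y i =
              - 2 * (A i j * sgn (y ⟨j, hj⟩)) := by
            simp only [lin]
            rw [← sum_sub_distrib, sum_eq_single ⟨j, hj⟩]
            · rw [update_self, sgn_not]; ring
            · intro b _ hb
              rw [update_of_ne hb]
              ring
            · simp
          rw [hy, hy'] at h5
          clear hy hy'
          have h6 : sgn (y ⟨j, hj⟩) ≠ 0 := by cases y ⟨j, hj⟩ <;> simp [sgn]
          have h7 : A i j * sgn (y ⟨j, hj⟩) ≠ 0 := mul_ne_zero hij h6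
          omega)
      have h4 : (univ.filter fun y : {k // ¬ p k} → Bool => 2 * lin y i = 0).card +
          (univ.filter fun y : {k // ¬ p k} → Bool => 2 * lin y i ≠ 0).card = 2 ^ M := by
        rw [card_filter_add_card_filter_not, card_univ, Fintype.card_fun, Fintype.card_bool]
      have h3' : 2 * (univ.filter fun y : {k // ¬ p k} → Bool => 2 * lin y i = 0).card ≤ 2 ^ M := by
        refine h3.trans (le_of_eq ?_)
        rw [Fintype.card_fun, Fintype.card_bool]
      omega
    have h5 : k * 2 ^ M ≤ 2 * ∑ y : {k // ¬ p k} → Bool, r y := by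
      rw [h1, mul_sum]
      calc k * 2 ^ M = ∑ i : {k // p k}, 2 ^ M := by
            rw [sum_const, card_univ, hck, smul_eq_mul]
        _ ≤ _ := sum_le_sum fun i _ => h2 i
    exact_mod_cast h5
  rw [hcard]
  push_cast
  have hk0 : (0 : ℝ) < k := by exact_mod_cast hpos
  calc (∑ y : {k // ¬ p k} → Bool, ((univ.filter fun x : {k // p k} → Bool =>
      ∑ k, sgn (x k) * (2 * lin y k) = c - K y).card : ℝ))
      ≤ ∑ y : {k // ¬ p k} → Bool, (1 - r y / k + 2 / √(k : ℝ)) * 2 ^ k :=
        sum_le_sum fun y _ => hfib y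
    _ = ((1 + 2 / √(k : ℝ)) * 2 ^ M - (∑ y : {k // ¬ p k} → Bool, (r y : ℝ)) / k) * 2 ^ k := by
        rw [← sum_mul]
        congr 1
        have : ∀ y : {k // ¬ p k} → Bool, (1 - (r y : ℝ) / k + 2 / √(k : ℝ)) =
            (1 + 2 / √(k : ℝ)) - r y / k := fun y => by ring
        rw [sum_congr rfl (fun y _ => this y), sum_sub_distrib, sum_const, card_univ,
          Fintype.card_fun, Fintype.card_bool, ← sum_div, nsmul_eq_mul]
        push_cast
        ring
    _ ≤ ((1 + 2 / √(k : ℝ)) * 2 ^ M - 2 ^ M / 2) * 2 ^ k := by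
        have h6 : (2 : ℝ) ^ M / 2 ≤ (∑ y : {k // ¬ p k} → Bool, (r y : ℝ)) / k := by
          rw [le_div_iff₀ hk0]
          linarith
        have h7 : (0 : ℝ) ≤ 2 ^ k := by positivity
        exact mul_le_mul_of_nonneg_right (by linarith) h7
    _ = (1 / 2 + 2 / √(k : ℝ)) * 2 ^ N := by
        rw [← hcN, pow_add]
        ring

end Pool.Agent.Q179.HS
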