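import Pool.Agent.Q179.HS.Unknots
import Pool.Agent.Q179.HS.Quad
import Pool.Agent.H832R2.JR.Matching
import Pool.Agent.H832R2.JR.Classes

/-!
# The bounds for shadows, and the extremal shadows
-/

set_option autoImplicit false

namespace Pool.Agent.Q179.HS

open Finset Function LaurentPolynomial Pool.Agent.H832R2.JR

variable {N : ℕ}

open Classical in
/-- diagrams with the same polynomial have the same value of the quadratic form -/
theorem card_le_Q (G : GaussWord N) (F : ℤ[T;T⁻¹]) (i : Fin N) :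
    ∃ c : ℤ, Nat.card {w : Fin N → Bool // fPoly G w = F} ≤
      (univ.filter fun w => Q (adjm G) w = c).card := by
  obtain ⟨K, hK⟩ := second_moment G i
  by_cases hne : ∃ w₀ : Fin N → Bool, fPoly G w₀ = F
  · obtain ⟨w₀, hw₀⟩ := hne
    refine ⟨Q (adjm G) w₀, ?_⟩
    rw [Nat.card_eq_fintype_card, Fintype.card_subtype]
    refine Finset.card_le_card fun w hw => ?_
    rw [Finset.mem_filter] at hw ⊢
    refine ⟨hw.1, ?_⟩
    have e1 := hK w
    have e2 := hK w₀
    rw [hw.2] at e1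
    rw [hw₀] at e2
    linarith
  · refine ⟨0, ?_⟩
    have h4 : IsEmpty {w : Fin N → Bool // fPoly G w = F} := ⟨fun w => hne ⟨w.1, w.2⟩⟩
    rw [Nat.card_eq_zero.2 (Or.inl h4)]
    exact Nat.zero_le _

theorem bound_three_quarters (G : GaussWord N) (F : ℤ[T;T⁻¹]) (i j : Fin N) (h : Crosses G i j) :
    4 * Nat.card {w : Fin N → Bool // fPoly G w = F} ≤ 3 * 2 ^ N := by
  classical
  obtain ⟨c, hc⟩ := card_le_Q G F i
  have hij : i ≠ j := by rintro rfl; exact not_crosses_self G i h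
  have h1 : adjm G i j ≠ 0 := by unfold adjm; rw [if_pos h]; exact one_ne_zero
  have h2 := three_quarters (adjm G) (adjm_symm G) i j hij h1 c
  calc _ ≤ 4 * (univ.filter fun w => Q (adjm G) w = c).card := Nat.mul_le_mul_left _ hc
    _ ≤ _ := by convert h2

theorem bound_half (G : GaussWord N) (F : ℤ[T;T⁻¹]) (hex : ∃ i j, Crosses G i j) :
    (Nat.card {w : Fin N → Bool // fPoly G w = F} : ℝ) ≤
      (1 / 2 + 5 * (Nat.card {i : Fin N // ∃ j, Crosses G i j} : ℝ) ^ (-(1 / 8 : ℝ))) * 2 ^ N := by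
  classical
  obtain ⟨i0, j0, hij0⟩ := hex
  obtain ⟨c, hc⟩ := card_le_Q G F i0
  set X := Nat.card {w : Fin N → Bool // fPoly G w = F} with hX
  set n := Nat.card {i : Fin N // ∃ j, Crosses G i j} with hn
  have hn0 : 0 < n := by
    rw [hn]
    have : Nonempty {i : Fin N // ∃ j, Crosses G i j} := ⟨⟨i0, j0, hij0⟩⟩
    exact Nat.card_pos
  have hnr : (1 : ℝ) ≤ n := by exact_mod_cast hn0
  have hn1 : (0 : ℝ) < n := by linarith
  have h2N : (0 : ℝ) < 2 ^ N := by positivity
  obtain ⟨m, u, v, ⟨hu, hv, huv, hcr⟩, hmax⟩ := exists_maximal G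
  by_cases hm : n ≤ 4 * m
  · -- many disjoint pairs
    have hm0 : 0 < m := by omega
    have hmr : (0 : ℝ) < m := by exact_mod_cast hm0
    have h1 := matching_bound' (adjm G) (adjm_symm G) u v hu hv huv (fun k => by
      unfold adjm; rw [if_pos (hcr k)]; exact one_ne_zero) c
    have h2 : (X : ℝ) * (m : ℝ) ^ (1 / 8 : ℝ) ≤ 4 * 2 ^ N := by
      refine le_trans ?_ h1
      have : (X : ℝ) ≤ ((univ.filter fun w => Q (adjm G) w = c).card : ℝ) := by exact_mod_cast hc
      gcongr
    have h3 : (n : ℝ) ^ (1 / 8 : ℝ) ≤ 5 / 4 * (m : ℝ) ^ (1 / 8 : ℝ) := by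
      have h5 : (n : ℝ) ≤ 4 * (m : ℝ) := by exact_mod_cast hm
      calc (n : ℝ) ^ (1 / 8 : ℝ) ≤ (4 * (m : ℝ)) ^ (1 / 8 : ℝ) :=
            Real.rpow_le_rpow (by positivity) h5 (by norm_num)
        _ = 4 ^ (1 / 8 : ℝ) * (m : ℝ) ^ (1 / 8 : ℝ) := Real.mul_rpow (by norm_num) (by positivity)
        _ ≤ 5 / 4 * (m : ℝ) ^ (1 / 8 : ℝ) := by
            gcongr
            have h6 : (4 : ℝ) ≤ (5 / 4) ^ (8 : ℕ) := by norm_num
            calc (4 : ℝ) ^ (1 / 8 : ℝ) ≤ (((5 / 4 : ℝ)) ^ (8 : ℕ)) ^ (1 / 8 : ℝ) :=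
                  Real.rpow_le_rpow (by norm_num) h6 (by norm_num)
              _ = 5 / 4 := by
                  rw [← Real.rpow_natCast, ← Real.rpow_mul (by norm_num)]
                  norm_num
    have h4 : (X : ℝ) * (n : ℝ) ^ (1 / 8 : ℝ) ≤ 5 * 2 ^ N := by
      calc (X : ℝ) * (n : ℝ) ^ (1 / 8 : ℝ) ≤ X * (5 / 4 * (m : ℝ) ^ (1 / 8 : ℝ)) := by gcongr
        _ = 5 / 4 * (X * (m : ℝ) ^ (1 / 8 : ℝ)) := by ring
        _ ≤ 5 / 4 * (4 * 2 ^ N) := by gcongr
        _ = _ := by ring
    have hp : 0 < (n : ℝ) ^ (1 / 8 : ℝ) := Real.rpow_pos_of_pos hn1 _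
    have h5 : (X : ℝ) ≤ 5 * (n : ℝ) ^ (-(1 / 8 : ℝ)) * 2 ^ N := by
      rw [Real.rpow_neg hn1.le]
      rw [← div_eq_mul_inv, div_mul_eq_mul_div, le_div_iff₀ hp]
      exact h4
    have h6 : (1 / 2 + 5 * (n : ℝ) ^ (-(1 / 8 : ℝ))) * 2 ^ N =
        1 / 2 * 2 ^ N + 5 * (n : ℝ) ^ (-(1 / 8 : ℝ)) * 2 ^ N := by ring
    rw [h6]
    have : (0 : ℝ) ≤ 1 / 2 * 2 ^ N := by positivity
    linarith
  · -- a large independent set
    let p : Fin N → Prop := fun i => (∃ j, Crosses G i j) ∧ ∀ k, u k ≠ i ∧ v k ≠ i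
    have hpc : n ≤ Fintype.card {k // p k} + 2 * m := by
      have h1 : n = (univ.filter fun i : Fin N => ∃ j, Crosses G i j).card := by
        rw [hn, Nat.card_eq_fintype_card, Fintype.card_subtype]
      have h2 : (univ.filter fun i : Fin N => ∃ j, Crosses G i j) ⊆
          (univ.filter p) ∪ (univ.image u ∪ univ.image v) := by
        intro i hi
        rw [mem_filter] at hi
        by_cases hp : ∀ k, u k ≠ i ∧ v k ≠ i
        · exact mem_union_left _ (mem_filter.2 ⟨mem_univ _, hi.2, hp⟩)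
        · push Not at hp
          obtain ⟨k, hk⟩ := hp
          refine mem_union_right _ ?_
          by_cases h : u k = i
          · exact mem_union_left _ (mem_image.2 ⟨k, mem_univ _, h⟩)
          · exact mem_union_right _ (mem_image.2 ⟨k, mem_univ _, hk h⟩)
      have h3 := card_le_card h2
      have h4 := card_union_le (univ.filter p) (univ.image u ∪ univ.image v)
      have h5 := card_union_le (univ.image u) (univ.image v)
      have h6 : (univ.image u).card ≤ m := card_image_le.trans (by simp)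
      have h7 : (univ.image v).card ≤ m := card_image_le.trans (by simp)
      have h8 : Fintype.card {k // p k} = (univ.filter p).card := Fintype.card_subtype p
      rw [h8]
      omega
    set k := Fintype.card {k // p k} with hk
    have hk2 : n < 2 * k := by omega
    have hk0 : 0 < k := by omega
    have h1 := half_bound (adjm G) (adjm_symm G) p (by
      intro i hi j hj
      unfold adjm
      rw [if_neg (hmax i j hi.2 hj.2)]) (by
      intro i hi
      obtain ⟨j, hj⟩ := hi.1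
      refine ⟨j, ?_, ?_⟩
      · intro hpj
        exact hmax i j hi.2 hpj.2 hj
      · unfold adjm
        rw [if_pos hj]
        exact one_ne_zero) hk0 c
    have h2 : (X : ℝ) ≤ (1 / 2 + 2 / √(k : ℝ)) * 2 ^ N := by
      refine le_trans ?_ (by convert h1)
      exact_mod_cast hc
    have hkr : (0 : ℝ) < k := by exact_mod_cast hk0
    have h3 : 2 / √(k : ℝ) ≤ 5 * (n : ℝ) ^ (-(1 / 8 : ℝ)) := by
      have h4 : (n : ℝ) ≤ 2 * k := by exact_mod_cast hk2.le
      have h5 : √(n : ℝ) ≤ 3 / 2 * √(k : ℝ) := by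
        calc √(n : ℝ) ≤ √(2 * k) := Real.sqrt_le_sqrt h4
          _ ≤ √((3 / 2) ^ 2 * k) := Real.sqrt_le_sqrt (by nlinarith)
          _ = 3 / 2 * √(k : ℝ) := by
              rw [Real.sqrt_mul (by norm_num), Real.sqrt_sq (by norm_num)]
      have hsk : 0 < √(k : ℝ) := Real.sqrt_pos.2 hkr
      have hsn : 0 < √(n : ℝ) := Real.sqrt_pos.2 hn1
      have h6 : 2 / √(k : ℝ) ≤ 3 / √(n : ℝ) := by
        rw [div_le_div_iff₀ hsk hsn]
        linarith
      have h7 : (√(n : ℝ))⁻¹ ≤ (n : ℝ) ^ (-(1 / 8 : ℝ)) := by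
        rw [Real.sqrt_eq_rpow, ← Real.rpow_neg hn1.le]
        exact Real.rpow_le_rpow_of_exponent_le hnr (by norm_num)
      have h8 : 0 ≤ (√(n : ℝ))⁻¹ := by positivity
      calc 2 / √(k : ℝ) ≤ 3 * (√(n : ℝ))⁻¹ := by rw [← div_eq_mul_inv]; exact h6
        _ ≤ 5 * (√(n : ℝ))⁻¹ := by linarith
        _ ≤ _ := by linarith
    calc (X : ℝ) ≤ (1 / 2 + 2 / √(k : ℝ)) * 2 ^ N := h2
      _ ≤ _ := by gcongr

/-- the Gauss word `1 2 … n a b n … 2 1 a b` -/
def twWord (n : ℕ) : GaussWord (n + 2) where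
  toFun x := if x.2 = false then ⟨x.1, by omega⟩ else
    if h : (x.1 : ℕ) < n then ⟨2 * n + 1 - x.1, by omega⟩ else ⟨x.1 + n + 2, by have := x.1.2; omega⟩
  invFun p := if h : (p : ℕ) < n + 2 then (⟨p, h⟩, false) else
    if h : (p : ℕ) < 2 * n + 2 then (⟨2 * n + 1 - p, by omega⟩, true) else
      (⟨p - n - 2, by have := p.2; omega⟩, true)
  left_inv := by
    rintro ⟨⟨c, hc⟩, b⟩
    cases b
    · simp [hc]
    · by_cases h : c < n
      · have h1 : ¬ (2 * n + 1 - c < n + 2) := by omega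
        have h2 : 2 * n + 1 - c < 2 * n + 2 := by omega
        have h3 : 2 * n + 1 - (2 * n + 1 - c) = c := by omega
        simp [h, h1, h2, h3]
      · have h1 : ¬ (c + n + 2 < n + 2) := by omega
        have h2 : ¬ (c + n + 2 < 2 * n + 2) := by omega
        have h3 : c + n + 2 - n - 2 = c := by omega
        simp [h, h1, h2, h3]
  right_inv := by
    rintro ⟨p, hp⟩
    by_cases h : p < n + 2
    · simp [h]
    · by_cases h' : p < 2 * n + 2
      · have h1 : 2 * n + 1 - p < n := by omega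
        have h3 : 2 * n + 1 - (2 * n + 1 - p) = p := by omega
        simp [h, h', h1, h3]
      · have h1 : ¬ (p - n - 2 < n) := by omega
        have h3 : p - n - 2 + n + 2 = p := by omega
        simp [h, h', h1, h3]

theorem tw_false (n : ℕ) (c : Fin (n + 2)) : (twWord n (c, false) : ℕ) = c := rfl

theorem tw_true (n : ℕ) (c : Fin (n + 2)) :
    (twWord n (c, true) : ℕ) = if (c : ℕ) < n then 2 * n + 1 - c else c + n + 2 := by
  unfold twWord
  by_cases h : (c : ℕ) < n
  · simp [h]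
  · simp [h]

theorem tw_crosses (n : ℕ) (i j : Fin (n + 2)) :
    Crosses (twWord n) i j ↔ i ≠ j ∧ (n ≤ (i : ℕ) ∨ n ≤ (j : ℕ)) := by
  unfold Crosses Pool.Agent.H832R2.JR.Btw
  simp only [tw_false, tw_true]
  have h1 := i.2
  have h2 := j.2
  rw [Ne, Fin.ext_iff]
  split_ifs <;> omega

theorem tw_all (n : ℕ) (i : Fin (n + 2)) : ∃ j, Crosses (twWord n) i j := by
  by_cases h : (i : ℕ) = n
  · refine ⟨⟨n + 1, by omega⟩, (tw_crosses n _ _).2 ⟨?_, Or.inl h.ge⟩⟩
    rw [Ne, Fin.ext_iff]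
    simp
    omega
  · refine ⟨⟨n, by omega⟩, (tw_crosses n _ _).2 ⟨?_, Or.inr le_rfl⟩⟩
    rw [Ne, Fin.ext_iff]
    exact h

theorem next_of_pos (G : GaussWord N) (x y : Fin N × Bool) (h : (G x : ℕ) + 1 = G y) :
    next G x = y := by
  apply G.injective
  apply Fin.ext
  rw [next_val, if_neg (by have := (G y).2; omega)]
  exact h

theorem next_of_last (G : GaussWord N) (x y : Fin N × Bool) (h : (G x : ℕ) + 1 = 2 * N)
    (hy : (G y : ℕ) = 0) : next G x = y := by
  apply G.injective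
  apply Fin.ext
  rw [next_val, if_pos h, hy]

theorem tw_parallel (n : ℕ) : Parallel (twWord n) ⟨n, by omega⟩ ⟨n + 1, by omega⟩ := by
  refine ⟨false, ?_⟩
  intro x
  rw [Bool.false_xor]
  apply next_of_pos
  cases x
  · rw [tw_false, tw_false]
  · rw [tw_true, tw_true]
    simp
    omega

theorem card_ne (a b : Fin N) (hab : a ≠ b) :
    2 * (univ.filter fun w : Fin N → Bool => w a ≠ w b).card = 2 ^ N := by
  have h1 : (univ.filter fun w : Fin N → Bool => w a ≠ w b).card =
      (univ.filter fun w : Fin N → Bool => ¬ (w a ≠ w b)).card := by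
    refine card_bij' (fun w _ => flip a w) (fun w _ => flip a w) ?_ ?_ ?_ ?_
    · intro w hw
      simp only [mem_filter, mem_univ, true_and] at hw ⊢
      unfold flip
      rw [update_self, update_of_ne hab.symm]
      cases h1 : w a <;> cases h2 : w b <;> simp [h1, h2] at hw ⊢
    · intro w hw
      simp only [mem_filter, mem_univ, true_and] at hw ⊢
      unfold flip
      rw [update_self, update_of_ne hab.symm]
      cases h1 : w a <;> cases h2 : w b <;> simp [h1, h2] at hw ⊢
    · intro w _; exact flip_flip a w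
    · intro w _; exact flip_flip a w
  have h2 := card_filter_add_card_filter_not (s := univ) (fun w : Fin N → Bool => w a ≠ w b)
  rw [card_univ, Fintype.card_fun, Fintype.card_bool, Fintype.card_fin] at h2
  omega

theorem tw_unknots (n : ℕ) :
    2 ^ (n + 1) ≤ Nat.card {w : Fin (n + 2) → Bool // fPoly (twWord n) w = 1} := by
  classical
  have hab : (⟨n, by omega⟩ : Fin (n + 2)) ≠ ⟨n + 1, by omega⟩ := by
    rw [Ne, Fin.ext_iff]; simp
  have h1 := card_ne _ _ hab
  rw [Nat.card_eq_fintype_card, Fintype.card_subtype]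
  have h2 : (univ.filter fun w : Fin (n + 2) → Bool => w ⟨n, by omega⟩ ≠ w ⟨n + 1, by omega⟩) ⊆
      univ.filter fun w => fPoly (twWord n) w = 1 := by
    intro w hw
    rw [mem_filter] at hw ⊢
    refine ⟨mem_univ _, fPoly_eq_one (twWord n) _ _ hab (tw_parallel n) ?_ w hw.2⟩
    intro c d hca hcb hda hdb _
    rw [tw_crosses]
    rintro ⟨_, h⟩
    rw [Ne, Fin.ext_iff] at hca hcb hda hdb
    simp only at hca hcb hda hdb
    omega
  have h3 := card_le_card h2
  rw [pow_succ] at h1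
  omega

theorem trefoil : Nat.card {w : Fin 3 → Bool // fPoly (twWord 1) w = 1} = 6 := by
  classical
  apply le_antisymm
  · have h : 4 * Nat.card {w : Fin 3 → Bool // fPoly (twWord 1) w = 1} ≤ 3 * 2 ^ 3 :=
      bound_three_quarters (twWord 1) 1 (0 : Fin 3) (1 : Fin 3)
        ((tw_crosses 1 _ _).2 ⟨by decide, Or.inr le_rfl⟩)
    omega
  · rw [Nat.card_eq_fintype_card, Fintype.card_subtype]
    have h2 : (univ.filter fun w : Fin 3 → Bool => ¬ (w 0 = w 1 ∧ w 1 = w 2)) ⊆
        univ.filter fun w => fPoly (twWord 1) w = 1 := by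
      intro w hw
      rw [mem_filter] at hw ⊢
      refine ⟨mem_univ _, ?_⟩
      by_cases h01 : w 0 = w 1
      · have h12 : w 1 ≠ w 2 := fun h => hw.2 ⟨h01, h⟩
        refine fPoly_eq_one (twWord 1) (1 : Fin 3) (2 : Fin 3) (by decide) (tw_parallel 1) ?_ w h12
        intro c d hc1 hc2 hd1 hd2 hcd
        exfalso
        fin_cases c <;> fin_cases d <;> simp at hc1 hc2 hd1 hd2 hcd
      · refine fPoly_eq_one (twWord 1) (0 : Fin 3) (1 : Fin 3) (by decide) ?_ ?_ w h01
        · refine ⟨false, ?_⟩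
          intro x
          rw [Bool.false_xor]
          apply next_of_pos
          cases x
          · rw [tw_false, tw_false]; rfl
          · rw [tw_true, tw_true]; simp
        · intro c d hc1 hc2 hd1 hd2 hcd
          exfalso
          fin_cases c <;> fin_cases d <;> simp at hc1 hc2 hd1 hd2 hcd
    refine le_trans ?_ (card_le_card h2)
    decide

end Pool.Agent.Q179.HS
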