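import Pool.Agent.Q179.HS.Bad
import Pool.Agent.Q179.HS.Main
import Pool.Agent.W642.RV.Vas
import Pool.Agent.W337.RV.FPoly
import Pool.Agent.W320.RV.Closed

/-!
# Two random diagrams with given shadows, and Vassiliev invariants of order two
-/

set_option autoImplicit false
set_option linter.unusedSectionVars false

namespace Pool.Agent.Q179.HS

open Finset Function LaurentPolynomial Pool.Agent.H832R2.JR Pool.Agent.H832R3.VJ

variable {N N' : ℕ}

/-- Outside of a bit more than half of the sign vectors no value of the form is popular. -/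
theorem bad_gauss (G : GaussWord N) (n : ℕ) (hn0 : 0 < n)
    (hn : n ≤ Nat.card {i : Fin N // ∃ j, Crosses G i j}) :
    ∃ B : Finset (Fin N → Bool), (B.card : ℝ) ≤ (1 / 2 + 4 * (n : ℝ) ^ (-(1 / 4 : ℝ))) * 2 ^ N ∧
      ∀ c : ℤ, ((univ.filter fun w => w ∉ B ∧ Q (adjm G) w = c).card : ℝ) ≤
        4 * (n : ℝ) ^ (-(1 / 4 : ℝ)) * 2 ^ N := by
  classical
  have hnr : (1 : ℝ) ≤ n := by exact_mod_cast hn0
  have hn1 : (0 : ℝ) < n := by linarith
  set x := (n : ℝ) ^ (-(1 / 4 : ℝ)) with hx
  have hx0 : 0 < x := Real.rpow_pos_of_pos hn1 _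
  have hx4 : x ^ 4 * n = 1 := by
    rw [hx, ← Real.rpow_natCast, ← Real.rpow_mul hn1.le]
    norm_num
    rw [Real.rpow_neg_one, inv_mul_cancel₀ hn1.ne']
  obtain ⟨m, u, v, ⟨hu, hv, huv, hcr⟩, hmax⟩ := exists_maximal G
  by_cases hm : n ≤ 4 * m
  · -- many disjoint pairs
    refine ⟨∅, ?_, fun c => ?_⟩
    · rw [card_empty]
      push_cast
      positivity
    · have hinj : Injective (Sum.elim u v) := by
        rintro (a | a) (b | b) hab
        · exact congrArg Sum.inl (hu (by simpa using hab))
        · exact absurd (by simpa using hab) (huv a b)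
        · exact absurd (by simpa using hab.symm) (huv b a)
        · exact congrArg Sum.inr (hv (by simpa using hab))
      have h1 := Pool.Agent.W642.RS.qlo N m (adjm G) (adjm_symm G) u v hinj (fun k => by
        unfold adjm; rw [if_pos (hcr k)]; exact one_ne_zero) c
      have h2 : (univ.filter fun w => w ∉ (∅ : Finset (Fin N → Bool)) ∧ Q (adjm G) w = c).card =
          (univ.filter fun w => Q (adjm G) w = c).card := by simp
      rw [h2]
      set X := (univ.filter fun w => Q (adjm G) w = c).card with hX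
      have h3 : (m : ℝ) * (X : ℝ) ^ 4 ≤ 32 * (2 ^ N) ^ 4 := by
        have : m * X ^ 4 ≤ 32 * (2 ^ N) ^ 4 := by convert h1
        exact_mod_cast this
      have h4 : (n : ℝ) ≤ 4 * m := by exact_mod_cast hm
      have h5 : (X : ℝ) ^ 4 ≤ (4 * x * 2 ^ N) ^ 4 := by
        have h6 : (n : ℝ) * (X : ℝ) ^ 4 ≤ 128 * (2 ^ N) ^ 4 := by
          have h7 : (0 : ℝ) ≤ (X : ℝ) ^ 4 := by positivity
          calc (n : ℝ) * (X : ℝ) ^ 4 ≤ 4 * m * (X : ℝ) ^ 4 := mul_le_mul_of_nonneg_right h4 h7
            _ = 4 * (m * (X : ℝ) ^ 4) := by ring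
            _ ≤ 4 * (32 * (2 ^ N) ^ 4) := by linarith
            _ = _ := by ring
        have h8 : (X : ℝ) ^ 4 = x ^ 4 * (n * (X : ℝ) ^ 4) := by
          rw [← mul_assoc, hx4, one_mul]
        rw [h8]
        have h9 : 0 ≤ x ^ 4 := by positivity
        calc x ^ 4 * (n * (X : ℝ) ^ 4) ≤ x ^ 4 * (128 * (2 ^ N) ^ 4) :=
              mul_le_mul_of_nonneg_left h6 h9
          _ ≤ (4 * x * 2 ^ N) ^ 4 := by
              have h10 : (4 * x * (2 : ℝ) ^ N) ^ 4 = x ^ 4 * (256 * (2 ^ N) ^ 4) := by ring
              rw [h10]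
              have h11 : (0 : ℝ) ≤ (2 ^ N) ^ 4 := by positivity
              refine mul_le_mul_of_nonneg_left ?_ h9
              linarith
      exact le_of_pow_le_pow_left₀ (by norm_num) (by positivity) h5
  · -- a large independent set
    set n' := Nat.card {i : Fin N // ∃ j, Crosses G i j} with hn'
    let p : Fin N → Prop := fun i => (∃ j, Crosses G i j) ∧ ∀ k, u k ≠ i ∧ v k ≠ i
    have hpc : n' ≤ Fintype.card {k // p k} + 2 * m := by
      have h1 : n' = (univ.filter fun i : Fin N => ∃ j, Crosses G i j).card := by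
        rw [hn', Nat.card_eq_fintype_card, Fintype.card_subtype]
      have h2 : (univ.filter fun i : Fin N => ∃ j, Crosses G i j) ⊆
          (univ.filter p) ∪ (univ.image u ∪ univ.image v) := by
        intro i hi
        rw [mem_filter] at hi
        by_cases hp : ∀ k, u k ≠ i ∧ v k ≠ i
        · exact mem_union_left _ (mem_filter.2 ⟨mem_univ _, hi.2, hp⟩)
        · push Not at hp
          obtain ⟨k, hk⟩ := hp
          refine mem_union_right _ ?_
          by_cases h : u k = i
          · exact mem_union_left _ (mem_image.2 ⟨k, mem_univ _, h⟩)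
          · exact mem_union_right _ (mem_image.2 ⟨k, mem_univ _, hk h⟩)
      have h3 := card_le_card h2
      have h4 := card_union_le (univ.filter p) (univ.image u ∪ univ.image v)
      have h5 := card_union_le (univ.image u) (univ.image v)
      have h6 : (univ.image u).card ≤ m := card_image_le.trans (by simp)
      have h7 : (univ.image v).card ≤ m := card_image_le.trans (by simp)
      have h8 : Fintype.card {k // p k} = (univ.filter p).card := Fintype.card_subtype p
      rw [h8]
      omega
    set k := Fintype.card {k // p k} with hk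
    have hk2 : n < 2 * k := by omega
    have hk0 : 0 < k := by omega
    have hkr : (1 : ℝ) ≤ k := by exact_mod_cast hk0
    have hk1 : (0 : ℝ) < k := by linarith
    set y := (k : ℝ) ^ (-(1 / 4 : ℝ)) with hy
    have hy0 : 0 < y := Real.rpow_pos_of_pos hk1 _
    have hy1 : y ≤ 1 := Real.rpow_le_one_of_one_le_of_nonpos hkr (by norm_num)
    have hy4 : y ^ 4 * k = 1 := by
      rw [hy, ← Real.rpow_natCast, ← Real.rpow_mul hk1.le]
      norm_num
      rw [Real.rpow_neg_one, inv_mul_cancel₀ hk1.ne']
    have hyx : y ≤ 2 * x := by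
      have h1 : y ^ 4 ≤ (2 * x) ^ 4 := by
        have h2 : (n : ℝ) ≤ 2 * k := by exact_mod_cast hk2.le
        have h3 : y ^ 4 * (k * n) ≤ (2 * x) ^ 4 * (k * n) := by
          have e1 : y ^ 4 * (k * n) = n := by rw [← mul_assoc, hy4, one_mul]
          have e2 : (2 * x) ^ 4 * ((k : ℝ) * n) = 16 * k := by
            calc (2 * x) ^ 4 * ((k : ℝ) * n) = 16 * k * (x ^ 4 * n) := by ring
              _ = _ := by rw [hx4, mul_one]
          rw [e1, e2]
          linarith
        exact le_of_mul_le_mul_right h3 (by positivity)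
      exact le_of_pow_le_pow_left₀ (by norm_num) (by positivity) h1
    obtain ⟨B, hB1, hB2⟩ := bad_lin (adjm G) (adjm_symm G) p (by
      intro i hi j hj
      unfold adjm
      rw [if_neg (hmax i j hi.2 hj.2)]) (by
      intro i hi
      obtain ⟨j, hj⟩ := hi.1
      refine ⟨j, ?_, ?_⟩
      · intro hpj
        exact hmax i j hi.2 hpj.2 hj
      · unfold adjm
        rw [if_pos hj]
        exact one_ne_zero) hk0 (y / 2) (by positivity) (by linarith)
    refine ⟨B, hB1.trans ?_, fun c => ?_⟩
    · have : (0 : ℝ) < 2 ^ N := by positivity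
      exact mul_le_mul_of_nonneg_right (by linarith) this.le
    · have h1 : ((univ.filter fun w => w ∉ B ∧ Q (adjm G) w = c).card : ℝ) ≤
          2 ^ N / √(y / 2 * k) := by
        have := hB2 c
        convert this
      refine h1.trans ?_
      have h2 : 0 < √(y / 2 * k) := Real.sqrt_pos.2 (by positivity)
      rw [div_le_iff₀ h2]
      have h3 : 1 ≤ 2 * y * √(y / 2 * k) := by
        have h4 : (1 : ℝ) ≤ (2 * y * √(y / 2 * k)) ^ 2 := by
          rw [mul_pow, Real.sq_sqrt (by positivity)]
          have h5 : (2 * y) ^ 2 * (y / 2 * k) * y = 2 * (y ^ 4 * k) := by ring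
          rw [hy4] at h5
          have h6 : 0 ≤ (2 * y) ^ 2 * (y / 2 * k) := by positivity
          nlinarith
        have h7 : 0 ≤ 2 * y * √(y / 2 * k) := by positivity
        nlinarith
      have h8 : (1 : ℝ) ≤ 4 * x * √(y / 2 * k) := by
        refine h3.trans ?_
        exact mul_le_mul_of_nonneg_right (by linarith) h2.le
      have h9 : (0 : ℝ) < 2 ^ N := by positivity
      nlinarith

section

variable {α β : Type} [Fintype α] [Fintype β] [DecidableEq α] [DecidableEq β]

theorem card_pairs (S : α → β → Prop) [∀ a b, Decidable (S a b)] :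
    (univ.filter fun W : α × β => S W.1 W.2).card = ∑ b, (univ.filter fun a => S a b).card := by
  rw [card_filter, Fintype.sum_prod_type_right]
  refine sum_congr rfl fun b _ => ?_
  rw [card_filter]

theorem card_pairs' (S : α → β → Prop) [∀ a b, Decidable (S a b)] :
    (univ.filter fun W : α × β => S W.1 W.2).card = ∑ a, (univ.filter fun b => S a b).card := by
  rw [card_filter, Fintype.sum_prod_type]
  refine sum_congr rfl fun b _ => ?_
  rw [card_filter]

/-- coincidences of two independent random integers which are spread outside of bad sets -/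
theorem pair_bound (f : α → ℤ) (g : β → ℤ) (B : Finset α) (B' : Finset β) (s t : ℝ)
    (hB : (B.card : ℝ) ≤ s * Fintype.card α) (hB' : (B'.card : ℝ) ≤ s * Fintype.card β)
    (h : ∀ c, ((univ.filter fun x => x ∉ B ∧ f x = c).card : ℝ) ≤ t * Fintype.card α)
    (h' : ∀ c, ((univ.filter fun x => x ∉ B' ∧ g x = c).card : ℝ) ≤ t * Fintype.card β) :
    ((univ.filter fun W : α × β => f W.1 = g W.2).card : ℝ) ≤
      (s ^ 2 + 2 * t) * (Fintype.card α * Fintype.card β) := by
  have hsub : (univ.filter fun W : α × β => f W.1 = g W.2) ⊆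
      (B ×ˢ B') ∪ ((univ.filter fun W : α × β => W.1 ∉ B ∧ f W.1 = g W.2) ∪
        (univ.filter fun W : α × β => W.2 ∉ B' ∧ g W.2 = f W.1)) := by
    rintro ⟨a, b⟩ hab
    simp only [mem_filter, mem_univ, true_and] at hab
    simp only [mem_union, mem_product, mem_filter, mem_univ, true_and]
    by_cases ha : a ∈ B
    · by_cases hb : b ∈ B'
      · exact Or.inl ⟨ha, hb⟩
      · exact Or.inr (Or.inr ⟨hb, hab.symm⟩)
    · exact Or.inr (Or.inl ⟨ha, hab⟩)
  have h1 := (card_le_card hsub).trans ((card_union_le _ _).trans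
    (Nat.add_le_add_left (card_union_le _ _) _))
  have h2 : ((univ.filter fun W : α × β => W.1 ∉ B ∧ f W.1 = g W.2).card : ℝ) ≤
      t * (Fintype.card α * Fintype.card β) := by
    rw [card_pairs (fun a b => a ∉ B ∧ f a = g b)]
    push_cast
    calc _ ≤ ∑ b : β, t * (Fintype.card α : ℝ) := sum_le_sum fun b _ => h _
      _ = _ := by
        rw [sum_const, card_univ, nsmul_eq_mul]
        ring
  have h3 : ((univ.filter fun W : α × β => W.2 ∉ B' ∧ g W.2 = f W.1).card : ℝ) ≤
      t * (Fintype.card α * Fintype.card β) := by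
    rw [card_pairs' (fun a b => b ∉ B' ∧ g b = f a)]
    push_cast
    calc _ ≤ ∑ a : α, t * (Fintype.card β : ℝ) := sum_le_sum fun b _ => h' _
      _ = _ := by
        rw [sum_const, card_univ, nsmul_eq_mul]
        ring
  have h4 : ((B ×ˢ B').card : ℝ) ≤ s ^ 2 * (Fintype.card α * Fintype.card β) := by
    rw [card_product]
    push_cast
    calc (B.card : ℝ) * B'.card ≤ (s * Fintype.card α) * (s * Fintype.card β) :=
          mul_le_mul hB hB' (by positivity) (le_trans (by positivity) hB)
      _ = _ := by ring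
  have h5 : ((univ.filter fun W : α × β => f W.1 = g W.2).card : ℝ) ≤
      ((B ×ˢ B').card : ℝ) + (((univ.filter fun W : α × β => W.1 ∉ B ∧ f W.1 = g W.2).card : ℝ) +
        ((univ.filter fun W : α × β => W.2 ∉ B' ∧ g W.2 = f W.1).card : ℝ)) := by
    exact_mod_cast h1
  linarith

/-- the sum of the squares of the sizes of the fibres -/
theorem sq_fibres (f : α → ℤ) (V : Finset ℤ) (hV : ∀ a, f a ∈ V)
    (h : ∀ c, 4 * (univ.filter fun x => f x = c).card ≤ 3 * Fintype.card α) :
    8 * ∑ v ∈ V, ((univ.filter fun x => f x = v).card : ℝ) ^ 2 ≤ 5 * (Fintype.card α : ℝ) ^ 2 := by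
  set a : ℝ := ((Fintype.card α : ℕ) : ℝ) with ha
  have ha0 : 0 ≤ a := by positivity
  have hsum : ∑ v ∈ V, ((univ.filter fun x => f x = v).card : ℝ) = a := by
    have h1 : ∑ v ∈ V, (univ.filter fun x => f x = v).card = Fintype.card α := by
      rw [← card_univ]
      exact (card_eq_sum_card_fiberwise fun x _ => hV x).symm
    rw [ha]
    exact_mod_cast h1
  by_cases hbig : ∀ v ∈ V, 8 * ((univ.filter fun x => f x = v).card : ℝ) ≤ 5 * a
  · calc 8 * ∑ v ∈ V, ((univ.filter fun x => f x = v).card : ℝ) ^ 2 =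
          ∑ v ∈ V, (8 * ((univ.filter fun x => f x = v).card : ℝ)) *
            ((univ.filter fun x => f x = v).card : ℝ) := by
          rw [mul_sum]
          refine sum_congr rfl fun v _ => ?_
          ring
      _ ≤ ∑ v ∈ V, (5 * a) * ((univ.filter fun x => f x = v).card : ℝ) :=
          sum_le_sum fun v hv => mul_le_mul_of_nonneg_right (hbig v hv) (by positivity)
      _ = 5 * a ^ 2 := by
          rw [← mul_sum, hsum]
          ring
  · push Not at hbig
    obtain ⟨v, hv, hlt⟩ := hbig
    have h1 := h v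
    have h2 : 4 * ((univ.filter fun x => f x = v).card : ℝ) ≤ 3 * a := by
      rw [ha]
      exact_mod_cast h1
    set q : ℝ := ((univ.filter fun x => f x = v).card : ℝ) with hq
    have h3 : ∑ w ∈ V.erase v, ((univ.filter fun x => f x = w).card : ℝ) = a - q := by
      have := add_sum_erase V (fun w => ((univ.filter fun x => f x = w).card : ℝ)) hv
      linarith
    have h4 : ∑ w ∈ V.erase v, ((univ.filter fun x => f x = w).card : ℝ) ^ 2 ≤ (a - q) ^ 2 := by
      rw [← h3, sq, sum_mul_sum]
      refine sum_le_sum fun w hw => ?_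
      rw [sq]
      exact single_le_sum (f := fun j => ((univ.filter fun x => f x = w).card : ℝ) *
        ((univ.filter fun x => f x = j).card : ℝ)) (fun j _ => by positivity) hw
    have h5 := add_sum_erase V (fun w => ((univ.filter fun x => f x = w).card : ℝ) ^ 2) hv
    have h6 : ∑ w ∈ V, ((univ.filter fun x => f x = w).card : ℝ) ^ 2 ≤ q ^ 2 + (a - q) ^ 2 := by
      linarith
    nlinarith

/-- coincidences of two independent random integers without popular values -/
theorem pair_bound' (f : α → ℤ) (g : β → ℤ)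
    (h : ∀ c, 4 * (univ.filter fun x => f x = c).card ≤ 3 * Fintype.card α)
    (h' : ∀ c, 4 * (univ.filter fun x => g x = c).card ≤ 3 * Fintype.card β)
    (ha : 0 < Fintype.card α) (hb : 0 < Fintype.card β) :
    8 * (univ.filter fun W : α × β => f W.1 = g W.2).card ≤
      5 * (Fintype.card α * Fintype.card β) := by
  classical
  set V : Finset ℤ := (univ.image f) ∪ (univ.image g) with hV
  have hfV : ∀ a, f a ∈ V := fun a => mem_union_left _ (mem_image_of_mem _ (mem_univ _))
  have hgV : ∀ a, g a ∈ V := fun a => mem_union_right _ (mem_image_of_mem _ (mem_univ _))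
  have h1 := sq_fibres f V hfV h
  have h2 := sq_fibres g V hgV h'
  set a : ℝ := ((Fintype.card α : ℕ) : ℝ) with ha'
  set b : ℝ := ((Fintype.card β : ℕ) : ℝ) with hb'
  have ha0 : 0 < a := by rw [ha']; exact_mod_cast ha
  have hb0 : 0 < b := by rw [hb']; exact_mod_cast hb
  have h3 : ((univ.filter fun W : α × β => f W.1 = g W.2).card : ℝ) =
      ∑ v ∈ V, ((univ.filter fun x => f x = v).card : ℝ) *
        ((univ.filter fun x => g x = v).card : ℝ) := by
    have h4 : (univ.filter fun W : α × β => f W.1 = g W.2).card =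
        ∑ v ∈ V, ((univ.filter fun W : α × β => f W.1 = g W.2).filter fun W => f W.1 = v).card :=
      card_eq_sum_card_fiberwise fun W _ => hfV W.1
    rw [h4]
    push_cast
    refine sum_congr rfl fun v _ => ?_
    have h5 : ((univ.filter fun W : α × β => f W.1 = g W.2).filter fun W => f W.1 = v) =
        (univ.filter fun x => f x = v) ×ˢ (univ.filter fun x => g x = v) := by
      ext ⟨x, y⟩
      simp only [mem_filter, mem_univ, true_and, mem_product]
      constructor
      · rintro ⟨h6, h7⟩
        exact ⟨h7, h6 ▸ h7⟩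
      · rintro ⟨h6, h7⟩
        exact ⟨h6.trans h7.symm, h6⟩
    rw [h5, card_product]
    push_cast
    rfl
  have h6 : 2 * (a * b) * ((univ.filter fun W : α × β => f W.1 = g W.2).card : ℝ) ≤
      b ^ 2 * ∑ v ∈ V, ((univ.filter fun x => f x = v).card : ℝ) ^ 2 +
      a ^ 2 * ∑ v ∈ V, ((univ.filter fun x => g x = v).card : ℝ) ^ 2 := by
    rw [h3, mul_sum, mul_sum, mul_sum, ← sum_add_distrib]
    refine sum_le_sum fun v _ => ?_
    nlinarith [sq_nonneg (b * ((univ.filter fun x => f x = v).card : ℝ) -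
      a * ((univ.filter fun x => g x = v).card : ℝ))]
  have h7 : 8 * ((univ.filter fun W : α × β => f W.1 = g W.2).card : ℝ) ≤ 5 * (a * b) := by
    have h8 : 16 * (a * b) * ((univ.filter fun W : α × β => f W.1 = g W.2).card : ℝ) ≤
        b ^ 2 * (5 * a ^ 2) + a ^ 2 * (5 * b ^ 2) := by
      have e1 := mul_le_mul_of_nonneg_left h1 (sq_nonneg b)
      have e2 := mul_le_mul_of_nonneg_left h2 (sq_nonneg a)
      linarith
    have h9 : (2 * (a * b)) * (8 * ((univ.filter fun W : α × β => f W.1 = g W.2).card : ℝ)) ≤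
        (2 * (a * b)) * (5 * (a * b)) := by linarith
    exact le_of_mul_le_mul_left h9 (by positivity)
  have : (8 * (univ.filter fun W : α × β => f W.1 = g W.2).card : ℝ) ≤
      (5 * (Fintype.card α * Fintype.card β) : ℕ) := by
    push_cast
    exact h7
  exact_mod_cast this

end

/-- the second moment of the bracket as a function of the signs -/
noncomputable def mom (G : GaussWord N) (w : Fin N → Bool) : ℤ := rho (fPoly G w) 0 2

theorem mom_fibre (G : GaussWord N) (i₀ : Fin N) (P : (Fin N → Bool) → Prop) (c : ℤ) :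
    ∃ c', ∀ w, P w → mom G w = c → Q (adjm G) w = c' := by
  obtain ⟨K, hK⟩ := second_moment G i₀
  refine ⟨(K - c) / 12, fun w _ hw => ?_⟩
  have := hK w
  unfold mom at hw
  rw [hw] at this
  omega

theorem mom_eq_of_not_separated (G : GaussWord N) (G' : GaussWord N') (e w : Fin N → Bool)
    (e' w' : Fin N' → Bool)
    (h : ¬ Separated 2 (Pool.Agent.W642.RV.dia G e w) (Pool.Agent.W642.RV.dia G' e' w')) :
    mom G w = mom G' w' := by
  have h1 := Pool.Agent.W642.RV.rho_of_not_separated Pool.Agent.W337.RV.fpoly G e w _ h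
  have h2 : (Pool.Agent.W642.RV.dia G' e' w').D.fPoly = fPoly G' w' :=
    Pool.Agent.W337.RV.fpoly N' G' e' w'
  rw [h2, ← Pool.Agent.W642.RV.rho_moment] at h1
  exact h1

theorem card_bool (N : ℕ) : Fintype.card (Fin N → Bool) = 2 ^ N := by simp

open Classical in
theorem mom_three (G : GaussWord N) (i j : Fin N) (h : Crosses G i j) (c : ℤ) :
    4 * (univ.filter fun w => mom G w = c).card ≤ 3 * Fintype.card (Fin N → Bool) := by
  have hij : i ≠ j := by rintro rfl; exact not_crosses_self G i h
  have h1 : adjm G i j ≠ 0 := by unfold adjm; rw [if_pos h]; exact one_ne_zero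
  obtain ⟨c', hc'⟩ := mom_fibre G i (fun _ => True) c
  have h2 := three_quarters (adjm G) (adjm_symm G) i j hij h1 c'
  rw [card_bool]
  refine le_trans (Nat.mul_le_mul_left _ (card_le_card fun w hw => ?_)) h2
  rw [mem_filter] at hw ⊢
  exact ⟨mem_univ _, hc' w trivial hw.2⟩

open Classical in
/-- any two shadows with crossing chords: at least `3/8` of the pairs are separated -/
theorem pair_three_eighths (G : GaussWord N) (G' : GaussWord N') (e : Fin N → Bool)
    (e' : Fin N' → Bool) (h : ∃ i j, Crosses G i j) (h' : ∃ i j, Crosses G' i j) :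
    8 * Nat.card {W : (Fin N → Bool) × (Fin N' → Bool) //
      ¬ Separated 2 (Pool.Agent.W642.RV.dia G e W.1) (Pool.Agent.W642.RV.dia G' e' W.2)} ≤
        5 * 2 ^ (N + N') := by
  obtain ⟨i, j, hij⟩ := h
  obtain ⟨i', j', hij'⟩ := h'
  have h1 := pair_bound' (mom G) (mom G') (mom_three G i j hij) (mom_three G' i' j' hij')
    (by rw [card_bool]; positivity) (by rw [card_bool]; positivity)
  rw [card_bool, card_bool, ← pow_add] at h1
  refine le_trans (Nat.mul_le_mul_left _ ?_) h1
  rw [Nat.card_eq_fintype_card, Fintype.card_subtype]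
  refine card_le_card fun W hW => ?_
  rw [mem_filter] at hW ⊢
  exact ⟨mem_univ _, mom_eq_of_not_separated G G' e W.1 e' W.2 hW.2⟩

open Classical in
/-- any two shadows: at least `3/4 - o(1)` of the pairs are separated -/
theorem pair_three_quarters (G : GaussWord N) (G' : GaussWord N') (e : Fin N → Bool)
    (e' : Fin N' → Bool) (n : ℕ) (hn0 : 0 < n)
    (hn : n ≤ Nat.card {i : Fin N // ∃ j, Crosses G i j})
    (hn' : n ≤ Nat.card {i : Fin N' // ∃ j, Crosses G' i j}) :
    (Nat.card {W : (Fin N → Bool) × (Fin N' → Bool) //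
      ¬ Separated 2 (Pool.Agent.W642.RV.dia G e W.1) (Pool.Agent.W642.RV.dia G' e' W.2)} : ℝ) ≤
        (1 / 4 + 16 * (n : ℝ) ^ (-(1 / 4 : ℝ))) * 2 ^ (N + N') := by
  obtain ⟨B, hB1, hB2⟩ := bad_gauss G n hn0 hn
  obtain ⟨B', hB1', hB2'⟩ := bad_gauss G' n hn0 hn'
  have hi : Nonempty {i : Fin N // ∃ j, Crosses G i j} := by
    by_contra hne
    rw [not_nonempty_iff] at hne
    rw [Nat.card_eq_zero.2 (Or.inl hne)] at hn
    omega
  have hi' : Nonempty {i : Fin N' // ∃ j, Crosses G' i j} := by
    by_contra hne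
    rw [not_nonempty_iff] at hne
    rw [Nat.card_eq_zero.2 (Or.inl hne)] at hn'
    omega
  set x := (n : ℝ) ^ (-(1 / 4 : ℝ)) with hx
  have hx0 : 0 < x := Real.rpow_pos_of_pos (by exact_mod_cast hn0) _
  have hcN : (Fintype.card (Fin N → Bool) : ℝ) = 2 ^ N := by rw [card_bool]; push_cast; rfl
  have hcN' : (Fintype.card (Fin N' → Bool) : ℝ) = 2 ^ N' := by rw [card_bool]; push_cast; rfl
  set X := Nat.card {W : (Fin N → Bool) × (Fin N' → Bool) //
      ¬ Separated 2 (Pool.Agent.W642.RV.dia G e W.1) (Pool.Agent.W642.RV.dia G' e' W.2)} with hX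
  have hX1 : X ≤ (univ.filter fun W : (Fin N → Bool) × (Fin N' → Bool) =>
      mom G W.1 = mom G' W.2).card := by
    rw [hX, Nat.card_eq_fintype_card, Fintype.card_subtype]
    refine card_le_card fun W hW => ?_
    rw [mem_filter] at hW ⊢
    exact ⟨mem_univ _, mom_eq_of_not_separated G G' e W.1 e' W.2 hW.2⟩
  have h1 := pair_bound (mom G) (mom G') B B' (1 / 2 + 4 * x) (4 * x)
    (by rw [hcN]; exact hB1) (by rw [hcN']; exact hB1') (by
      intro c
      obtain ⟨c', hc'⟩ := mom_fibre G hi.some.1 (fun w => w ∉ B) c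
      rw [hcN]
      refine le_trans ?_ (hB2 c')
      have : (univ.filter fun w => w ∉ B ∧ mom G w = c).card ≤
          (univ.filter fun w => w ∉ B ∧ Q (adjm G) w = c').card := by
        refine card_le_card fun w hw => ?_
        rw [mem_filter] at hw ⊢
        exact ⟨mem_univ _, hw.2.1, hc' w hw.2.1 hw.2.2⟩
      exact_mod_cast this) (by
      intro c
      obtain ⟨c', hc'⟩ := mom_fibre G' hi'.some.1 (fun w => w ∉ B') c
      rw [hcN']
      refine le_trans ?_ (hB2' c')
      have : (univ.filter fun w => w ∉ B' ∧ mom G' w = c).card ≤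
          (univ.filter fun w => w ∉ B' ∧ Q (adjm G') w = c').card := by
        refine card_le_card fun w hw => ?_
        rw [mem_filter] at hw ⊢
        exact ⟨mem_univ _, hw.2.1, hc' w hw.2.1 hw.2.2⟩
      exact_mod_cast this)
  rw [hcN, hcN', ← pow_add] at h1
  have hX2 : (X : ℝ) ≤ ((1 / 2 + 4 * x) ^ 2 + 2 * (4 * x)) * 2 ^ (N + N') := by
    refine le_trans ?_ h1
    exact_mod_cast hX1
  have hX3 : (X : ℝ) ≤ 1 * 2 ^ (N + N') := by
    have h3 : X ≤ 2 ^ (N + N') := by
      refine hX1.trans ((card_le_univ _).trans_eq ?_)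
      rw [Fintype.card_prod, card_bool, card_bool, pow_add]
    rw [one_mul]
    exact_mod_cast h3
  have hp : (0 : ℝ) < 2 ^ (N + N') := by positivity
  by_cases hxl : 16 * x ≤ 3 / 4
  · refine hX2.trans (mul_le_mul_of_nonneg_right ?_ hp.le)
    nlinarith
  · refine hX3.trans (mul_le_mul_of_nonneg_right ?_ hp.le)
    linarith

open Classical in
/-- many pairwise separated knots with the same shadow -/
theorem many_types (G : GaussWord N) (e : Fin N → Bool) (n : ℕ) (hn0 : 0 < n)
    (hn : n ≤ Nat.card {i : Fin N // ∃ j, Crosses G i j}) :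
    ∃ T : Finset (Fin N → Bool), (n : ℝ) ^ (1 / 4 : ℝ) / 8 - 1 ≤ T.card ∧
      ∀ w ∈ T, ∀ w' ∈ T, w ≠ w' →
        Separated 2 (Pool.Agent.W642.RV.dia G e w) (Pool.Agent.W642.RV.dia G e w') := by
  obtain ⟨B, hB1, hB2⟩ := bad_gauss G n hn0 hn
  have hi : Nonempty {i : Fin N // ∃ j, Crosses G i j} := by
    by_contra hne
    rw [not_nonempty_iff] at hne
    rw [Nat.card_eq_zero.2 (Or.inl hne)] at hn
    omega
  have hn1 : (0 : ℝ) < n := by exact_mod_cast hn0
  set x := (n : ℝ) ^ (-(1 / 4 : ℝ)) with hx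
  have hx0 : 0 < x := Real.rpow_pos_of_pos hn1 _
  have hxy : x * (n : ℝ) ^ (1 / 4 : ℝ) = 1 := by
    rw [hx, ← Real.rpow_add hn1]
    norm_num
  set V : Finset ℤ := (univ.filter fun w => w ∉ B).image (mom G) with hV
  have hV1 : ∀ v ∈ V, ∃ w, w ∉ B ∧ mom G w = v := by
    intro v hv
    rw [hV, mem_image] at hv
    obtain ⟨w, hw, rfl⟩ := hv
    exact ⟨w, (mem_filter.1 hw).2, rfl⟩
  let g : ℤ → (Fin N → Bool) := fun v => if h : ∃ w, mom G w = v then h.choose else fun _ => true
  have hg : ∀ v ∈ V, mom G (g v) = v := by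
    intro v hv
    have h : ∃ w, mom G w = v := by
      obtain ⟨w, -, hw⟩ := hV1 v hv
      exact ⟨w, hw⟩
    simp only [g, dif_pos h]
    exact h.choose_spec
  refine ⟨V.image g, ?_, ?_⟩
  · have hcard : (V.image g).card = V.card := by
      refine card_image_of_injOn fun v hv v' hv' h => ?_
      rw [← hg v hv, ← hg v' hv', h]
    rw [hcard]
    have h1 : ((univ.filter fun w => w ∉ B).card : ℝ) ≤ V.card * (4 * x * 2 ^ N) := by
      have h2 : (univ.filter fun w => w ∉ B).card =
          ∑ v ∈ V, ((univ.filter fun w => w ∉ B).filter fun w => mom G w = v).card :=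
        card_eq_sum_card_fiberwise fun w hw => mem_image_of_mem _ hw
      rw [h2]
      push_cast
      calc _ ≤ ∑ v ∈ V, 4 * x * (2 : ℝ) ^ N := by
            refine sum_le_sum fun v _ => ?_
            obtain ⟨c', hc'⟩ := mom_fibre G hi.some.1 (fun w => w ∉ B) v
            refine le_trans ?_ (hB2 c')
            have : ((univ.filter fun w => w ∉ B).filter fun w => mom G w = v).card ≤
                (univ.filter fun w => w ∉ B ∧ Q (adjm G) w = c').card := by
              refine card_le_card fun w hw => ?_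
              rw [mem_filter, mem_filter] at hw
              rw [mem_filter]
              exact ⟨mem_univ _, hw.1.2, hc' w hw.1.2 hw.2⟩
            exact_mod_cast this
        _ = _ := by rw [sum_const, nsmul_eq_mul]
    have h3 : (B.card : ℝ) + ((univ.filter fun w => w ∉ B).card : ℝ) = 2 ^ N := by
      have h4 : B.card + (univ.filter fun w => w ∉ B).card = 2 ^ N := by
        have h5 : (univ.filter fun w : Fin N → Bool => w ∉ B) = Bᶜ := by
          ext w
          simp
        rw [h5, card_add_card_compl, card_bool]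
      exact_mod_cast h4
    have hp : (0 : ℝ) < 2 ^ N := by positivity
    have h6 : (1 / 2 - 4 * x) * (2 : ℝ) ^ N ≤ V.card * (4 * x) * 2 ^ N := by linarith
    have h7 : 1 / 2 - 4 * x ≤ V.card * (4 * x) := le_of_mul_le_mul_right h6 hp
    set y := (n : ℝ) ^ (1 / 4 : ℝ) with hy
    have hy0 : 0 < y := Real.rpow_pos_of_pos hn1 _
    have h8 : (y / 8 - 1) * (4 * x) ≤ V.card * (4 * x) := by
      have h9 : (y / 8 - 1) * (4 * x) = x * y / 2 - 4 * x := by ring
      rw [h9, hxy]
      exact h7
    exact le_of_mul_le_mul_right h8 (by positivity)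
  · intro w hw w' hw' hne
    by_contra hcon
    apply hne
    rw [mem_image] at hw hw'
    obtain ⟨v, hv, rfl⟩ := hw
    obtain ⟨v', hv', rfl⟩ := hw'
    have h1 := mom_eq_of_not_separated G G e _ e _ hcon
    rw [hg v hv, hg v' hv'] at h1
    rw [h1]

theorem tw_pairs (n : ℕ) : 2 ^ (2 * (n + 2)) ≤ 4 * Nat.card {W : (Fin (n + 2) → Bool) ×
    (Fin (n + 2) → Bool) // fPoly (twWord n) W.1 = 1 ∧ fPoly (twWord n) W.2 = 1} := by
  have h1 := tw_unknots n
  let φ : {w : Fin (n + 2) → Bool // fPoly (twWord n) w = 1} ×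
      {w : Fin (n + 2) → Bool // fPoly (twWord n) w = 1} →
      {W : (Fin (n + 2) → Bool) × (Fin (n + 2) → Bool) //
        fPoly (twWord n) W.1 = 1 ∧ fPoly (twWord n) W.2 = 1} :=
    fun p => ⟨(p.1.1, p.2.1), p.1.2, p.2.2⟩
  have h2 : Nat.card ({w : Fin (n + 2) → Bool // fPoly (twWord n) w = 1} ×
      {w : Fin (n + 2) → Bool // fPoly (twWord n) w = 1}) ≤
      Nat.card {W : (Fin (n + 2) → Bool) × (Fin (n + 2) → Bool) //
        fPoly (twWord n) W.1 = 1 ∧ fPoly (twWord n) W.2 = 1} := by
    refine Nat.card_le_card_of_injective φ ?_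
    rintro ⟨a, b⟩ ⟨a', b'⟩ h
    have h3 := congrArg (fun z => z.1) h
    exact Prod.ext (Subtype.ext (Prod.ext_iff.1 h3).1) (Subtype.ext (Prod.ext_iff.1 h3).2)
  rw [Nat.card_prod] at h2
  calc 2 ^ (2 * (n + 2)) = 4 * (2 ^ (n + 1) * 2 ^ (n + 1)) := by ring
    _ ≤ 4 * (Nat.card {w : Fin (n + 2) → Bool // fPoly (twWord n) w = 1} *
        Nat.card {w : Fin (n + 2) → Bool // fPoly (twWord n) w = 1}) :=
        Nat.mul_le_mul_left _ (Nat.mul_le_mul h1 h1)
    _ ≤ _ := Nat.mul_le_mul_left _ h2

end Pool.Agent.Q179.HS
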