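import Pool.Agent.Q179.HS.Main

/-!
# The criterion of Rosenstiehl for Gauss words of plane curves
-/

set_option autoImplicit false

namespace Pool.Agent.Q179.HS

open Finset Pool.Agent.H832R2.JR

variable {N : ℕ}

/-- The combinatorial criterion of Gauss, Rosenstiehl and de Fraysseix and Ossona de Mendez for the Gauss
words of closed curves in the plane: every chord crosses an even number of chords; for two chords which do
not cross, the number of chords crossing both of them is even; the pairs of crossing chords for which the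
number of chords crossing both of them is even form a cut. -/
def PlaneCriterion (G : GaussWord N) : Prop :=
  (∀ i, Even (Nat.card {j // Crosses G i j})) ∧
  (∀ i j, i ≠ j → ¬ Crosses G i j → Even (Nat.card {k // Crosses G i k ∧ Crosses G j k})) ∧
  ∃ S : Fin N → Bool, ∀ i j, Crosses G i j →
    (Even (Nat.card {k // Crosses G i k ∧ Crosses G j k}) ↔ S i ≠ S j)

theorem card_sub (P : Fin N → Prop) (S : Finset (Fin N)) (h : ∀ j, P j ↔ j ∈ S) :
    Nat.card {j // P j} = S.card := by
  have : {j // P j} = {j // j ∈ S} := by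
    congr 1
    funext j
    exact propext (h j)
  rw [this, Nat.card_eq_fintype_card, Fintype.card_coe]

theorem tw_plane (n : ℕ) (hn : Odd n) : PlaneCriterion (twWord n) := by
  obtain ⟨q, rfl⟩ := hn
  set n := 2 * q + 1 with hq
  let a : Fin (n + 2) := ⟨n, by omega⟩
  let b : Fin (n + 2) := ⟨n + 1, by omega⟩
  have ha : (a : ℕ) = n := rfl
  have hb : (b : ℕ) = n + 1 := rfl
  have hab : a ≠ b := by rw [Ne, Fin.ext_iff]; omega
  have hge : ∀ k : Fin (n + 2), n ≤ (k : ℕ) ↔ k = a ∨ k = b := by
    intro k
    have := k.2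
    rw [Fin.ext_iff, Fin.ext_iff, ha, hb]
    omega
  simp only [PlaneCriterion, tw_crosses]
  refine ⟨?_, ?_, fun _ => false, ?_⟩
  · intro i
    by_cases hi : n ≤ (i : ℕ)
    · rw [card_sub _ (univ.erase i) (by
        intro j
        rw [mem_erase]
        constructor
        · rintro ⟨h, _⟩; exact ⟨h.symm, mem_univ _⟩
        · rintro ⟨h, _⟩; exact ⟨h.symm, Or.inl hi⟩)]
      rw [card_erase_of_mem (mem_univ _), card_univ, Fintype.card_fin]
      exact ⟨q + 1, by omega⟩
    · rw [card_sub _ {a, b} (by
        intro j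
        rw [mem_insert, mem_singleton, ← hge]
        constructor
        · rintro ⟨_, h | h⟩
          · exact absurd h hi
          · exact h
        · intro h
          refine ⟨?_, Or.inr h⟩
          rintro rfl
          exact hi h)]
      rw [card_pair hab]
      exact ⟨1, rfl⟩
  · intro i j hij hc
    have hi : ¬ n ≤ (i : ℕ) := fun h => hc ⟨hij, Or.inl h⟩
    have hj : ¬ n ≤ (j : ℕ) := fun h => hc ⟨hij, Or.inr h⟩
    rw [card_sub _ {a, b} (by
      intro k
      rw [mem_insert, mem_singleton, ← hge]
      constructor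
      · rintro ⟨⟨_, h | h⟩, _⟩
        · exact absurd h hi
        · exact h
      · intro h
        refine ⟨⟨?_, Or.inr h⟩, ⟨?_, Or.inr h⟩⟩
        · rintro rfl; exact hi h
        · rintro rfl; exact hj h)]
    rw [card_pair hab]
    exact ⟨1, rfl⟩
  · rintro i j ⟨hij, hc⟩
    have hodd : ∀ m : ℕ, Odd m → (Even m ↔ (false ≠ false)) := by
      intro m hm
      constructor
      · intro h; exact absurd hm (Nat.not_odd_iff_even.2 h)
      · intro h; exact absurd rfl h
    apply hodd
    by_cases hi : n ≤ (i : ℕ)
    · by_cases hj : n ≤ (j : ℕ)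
      · rw [card_sub _ ((univ.erase i).erase j) (by
          intro k
          rw [mem_erase, mem_erase]
          constructor
          · rintro ⟨⟨h, _⟩, ⟨h', _⟩⟩; exact ⟨h'.symm, h.symm, mem_univ _⟩
          · rintro ⟨h', h, _⟩; exact ⟨⟨h.symm, Or.inl hi⟩, ⟨h'.symm, Or.inl hj⟩⟩)]
        rw [card_erase_of_mem (mem_erase.2 ⟨hij.symm, mem_univ _⟩), card_erase_of_mem (mem_univ _),
          card_univ, Fintype.card_fin]
        exact ⟨q, by omega⟩
      · rw [card_sub _ (({a, b} : Finset (Fin (n + 2))).erase i) (by
          intro k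
          rw [mem_erase, mem_insert, mem_singleton, ← hge]
          constructor
          · rintro ⟨⟨h, _⟩, ⟨_, h2 | h2⟩⟩
            · exact absurd h2 hj
            · exact ⟨h.symm, h2⟩
          · rintro ⟨h, h2⟩
            refine ⟨⟨h.symm, Or.inl hi⟩, ⟨?_, Or.inr h2⟩⟩
            rintro rfl; exact hj h2)]
        rw [card_erase_of_mem (by rw [mem_insert, mem_singleton, ← hge]; exact hi), card_pair hab]
        exact ⟨0, rfl⟩
    · have hj : n ≤ (j : ℕ) := hc.resolve_left hi
      rw [card_sub _ (({a, b} : Finset (Fin (n + 2))).erase j) (by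
          intro k
          rw [mem_erase, mem_insert, mem_singleton, ← hge]
          constructor
          · rintro ⟨⟨_, h2 | h2⟩, ⟨h, _⟩⟩
            · exact absurd h2 hi
            · exact ⟨h.symm, h2⟩
          · rintro ⟨h, h2⟩
            refine ⟨⟨?_, Or.inr h2⟩, ⟨h.symm, Or.inl hj⟩⟩
            rintro rfl; exact hi h2)]
      rw [card_erase_of_mem (by rw [mem_insert, mem_singleton, ← hge]; exact hj), card_pair hab]
      exact ⟨0, rfl⟩

end Pool.Agent.Q179.HS
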