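import Pool.Agent.Q179.HS.Loops

/-!
# Shadows with many unknots
-/

set_option autoImplicit false

namespace Pool.Agent.Q179.HS

open Finset Function LaurentPolynomial Pool.Agent.H832R2.JR

variable {N : ℕ}

/-- the value of a curve -/
noncomputable def dl : ℤ[T;T⁻¹] := -T 2 - T (-2)

theorem tri_update (s : Fin N → Bool) (c : Fin N) (x : Bool) :
    tri (update s c x) = update (tri s) c (if x then 1 else 2) := by
  funext d
  unfold tri
  by_cases h : d = c
  · subst h; simp
  · simp [update_of_ne h]

theorem sum_half (c : Fin N) (F : (Fin N → Bool) → ℤ[T;T⁻¹]) :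
    ∑ s, F s = ∑ s ∈ univ.filter (fun s : Fin N → Bool => s c = true), (F s + F (update s c false)) := by
  rw [sum_add_distrib, ← sum_filter_add_sum_filter_not univ (fun s : Fin N → Bool => s c = true)]
  congr 1
  symm
  refine sum_bij' (fun s _ => update s c false) (fun s _ => update s c true) ?_ ?_ ?_ ?_ ?_
  · intro s hs; simp
  · intro s hs; simp
  · intro s hs
    rw [mem_filter] at hs
    rw [update_idem, ← hs.2, update_eq_self]
  · intro s hs
    rw [mem_filter, Bool.not_eq_true] at hs
    rw [update_idem, ← hs.2, update_eq_self]
  · intro s hs; rfl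

theorem weight_update (w s : Fin N → Bool) (c : Fin N) (h : s c = true) :
    weight w (update s c false) = weight w s - 2 * sgn (w c) := by
  unfold weight
  rw [← sub_eq_zero, ← sub_add, ← sum_sub_distrib]
  rw [sum_eq_single c]
  · rw [update_self, h]
    simp only [sgn]
    cases w c <;> simp
  · intro d _ hd
    rw [update_of_ne hd, sub_self]
  · simp

theorem T_sum (f : Fin N → ℤ) : (T (∑ c, f c) : ℤ[T;T⁻¹]) = ∏ c, T (f c) := by
  have : ∀ S : Finset (Fin N), (T (∑ c ∈ S, f c) : ℤ[T;T⁻¹]) = ∏ c ∈ S, T (f c) := by
    intro S
    induction S using Finset.induction_on with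
    | empty => simp
    | insert c S hc ih => rw [sum_insert hc, prod_insert hc, T_add, ih]
  exact this univ

/-- the four states at `a` and `b` add up to the state without the two crossings -/
theorem four_states (G : GaussWord N) (a b : Fin N) (hab : a ≠ b) (h : Parallel G a b)
    (w s : Fin N → Bool) (hw : w a ≠ w b) (ha : s a = true) (hb : s b = true) :
    (T (weight w s) * dl ^ (L G (tri s) - 1) +
      T (weight w (update s b false)) * dl ^ (L G (tri (update s b false)) - 1)) +
    (T (weight w (update s a false)) * dl ^ (L G (tri (update s a false)) - 1) +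
      T (weight w (update (update s a false) b false)) *
        dl ^ (L G (tri (update (update s a false) b false)) - 1)) =
    T (weight w s) * dl ^ (L G (update (update (tri s) a 0) b 0) - 1) := by
  have ha' : (update s a false) b = true := by rw [update_of_ne hab.symm]; exact hb
  rw [weight_update w s b hb, weight_update w s a ha, weight_update w _ b ha',
    weight_update w s a ha]
  have t11 : tri s = update (update (tri s) a 1) b 1 := by
    have e1 : tri s a = 1 := by simp [tri, ha]
    have e2 : tri s b = 1 := by simp [tri, hb]
    rw [← e1, update_eq_self, e1, ← e2, update_eq_self]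
  have t12 : tri (update s b false) = update (update (tri s) a 1) b 2 := by
    rw [tri_update]
    have e1 : tri s a = 1 := by simp [tri, ha]
    rw [← e1, update_eq_self]
    simp
  have t21 : tri (update s a false) = update (update (tri s) a 2) b 1 := by
    rw [tri_update]
    have e2 : (update (tri s) a 2) b = 1 := by rw [update_of_ne hab.symm]; simp [tri, hb]
    rw [← e2, update_eq_self]
    simp
  have t22 : tri (update (update s a false) b false) = update (update (tri s) a 2) b 2 := by
    rw [tri_update, tri_update]
    simp
  have e11 : L G (tri s) = L G (update (update (tri s) a 0) b 0) := by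
    conv_lhs => rw [t11]
    exact par_swap G a b hab h (tri s)
  have q1 := par_a G a b hab h (update (tri s) b 2) (update_self ..) 1 (by decide)
  rw [update_comm hab.symm, update_comm hab.symm (2 : Fin 3) (1 : Fin 3) (tri s)] at q1
  have q2 := par_b G a b hab h (update (tri s) a 2) (update_self ..) 1 (by decide)
  rw [t12, t21, t22, e11]
  have p1 := one_le_L G (update (update (tri s) a 1) b 2) a
  obtain ⟨m, hm⟩ : ∃ m, L G (update (update (tri s) a 1) b 2) = m + 1 := ⟨_, (Nat.sub_add_cancel p1).symm⟩
  have hm2 : L G (update (update (tri s) a 2) b 1) = m + 1 := by omega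
  have hm3 : L G (update (update (tri s) a 2) b 2) = m + 2 := by omega
  rw [hm, hm2, hm3]
  simp only [Nat.add_sub_cancel, show m + 2 - 1 = m + 1 by omega]
  set Z := dl ^ (L G (update (update (tri s) a 0) b 0) - 1) with hZ
  set W := weight w s with hW
  have hs : sgn (w b) = - sgn (w a) := by
    cases h1 : w a <;> cases h2 : w b <;> simp [sgn, h1, h2] at hw ⊢
  rw [hs]
  have k1 : T (W - 2 * -sgn (w a)) + T (W - 2 * sgn (w a)) = (T W * -dl : ℤ[T;T⁻¹]) := by
    unfold dl
    rw [neg_sub, sub_neg_eq_add, mul_add, ← T_add, ← T_add]
    cases w a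
    · simp only [sgn]
      simp
      try ring_nf
      try rw [add_comm]
    · simp only [sgn]
      simp
      try ring_nf
      try rw [add_comm]
  have k2 : W - 2 * sgn (w a) - 2 * -sgn (w a) = W := by ring
  rw [k2]
  have k3 : T (W - 2 * -sgn (w a)) * dl ^ m + T (W - 2 * sgn (w a)) * dl ^ m =
      (T (W - 2 * -sgn (w a)) + T (W - 2 * sgn (w a))) * dl ^ m := by ring
  calc _ = T W * Z + (T (W - 2 * -sgn (w a)) * dl ^ m + T (W - 2 * sgn (w a)) * dl ^ m) +
        T W * dl ^ (m + 1) := by ring
    _ = T W * Z := by rw [k3, k1, pow_succ]; ring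

/-- if the chords other than `a` and `b` do not cross each other, then the diagrams in which the
crossings `a` and `b` have opposite signs have the bracket of the unknot -/
theorem fPoly_eq_one (G : GaussWord N) (a b : Fin N) (hab : a ≠ b) (h : Parallel G a b)
    (hlam : ∀ c d, c ≠ a → c ≠ b → d ≠ a → d ≠ b → c ≠ d → ¬ Crosses G c d)
    (w : Fin N → Bool) (hw : w a ≠ w b) : fPoly G w = 1 := by
  have h1 : bracket G w = ∑ s ∈ (univ.filter (fun s : Fin N → Bool => s a = true)).filter
      (fun s => s b = true), T (weight w s) * dl ^ (L G (update (update (tri s) a 0) b 0) - 1) := by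
    unfold bracket
    have e1 : ∀ s : Fin N → Bool, T (weight w s) * (-T 2 - T (-2)) ^ (loops G s - 1) =
        (T (weight w s) * dl ^ (L G (tri s) - 1) : ℤ[T;T⁻¹]) := by
      intro s; rw [loops_eq]; rfl
    rw [sum_congr rfl (fun s _ => e1 s)]
    rw [sum_half b, sum_filter, sum_half a, filter_filter, sum_filter, sum_filter]
    refine sum_congr rfl fun s _ => ?_
    by_cases ha : s a = true
    · by_cases hb : s b = true
      · have hb' : (update s a false) b = true := by rw [update_of_ne hab.symm]; exact hb
        rw [if_pos ha, if_pos hb, if_pos hb', if_pos ⟨ha, hb⟩]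
        exact four_states G a b hab h w s hw ha hb
      · have hb' : ¬ (update s a false) b = true := by rw [update_of_ne hab.symm]; exact hb
        rw [if_pos ha, if_neg hb, if_neg hb', if_neg (fun h => hb h.2), add_zero]
    · rw [if_neg ha, if_neg (fun h => ha h.1)]
  have h2 : (univ.filter (fun s : Fin N → Bool => s a = true)).filter (fun s => s b = true) =
      Fintype.piFinset (fun c => if c = a ∨ c = b then {true} else univ) := by
    ext s
    simp only [mem_filter, mem_univ, true_and, Fintype.mem_piFinset]
    constructor
    · rintro ⟨ha, hb⟩ c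
      by_cases hc : c = a ∨ c = b
      · rw [if_pos hc, mem_singleton]
        rcases hc with rfl | rfl
        · exact ha
        · exact hb
      · rw [if_neg hc]; exact mem_univ _
    · intro hs
      have ha := hs a
      have hb := hs b
      rw [if_pos (Or.inl rfl), mem_singleton] at ha
      rw [if_pos (Or.inr rfl), mem_singleton] at hb
      exact ⟨ha, hb⟩
  let g : Fin N → Bool → ℤ[T;T⁻¹] := fun c x => if c = a ∨ c = b then T (sgn (w c)) else
    T (sgn (w c) * sgn x) * (if x = true then dl else 1)
  have h3 : ∀ s ∈ Fintype.piFinset (fun c => if c = a ∨ c = b then ({true} : Finset Bool) else univ),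
      T (weight w s) * dl ^ (L G (update (update (tri s) a 0) b 0) - 1) = ∏ c, g c (s c) := by
    intro s hs
    rw [← h2, mem_filter, mem_filter] at hs
    rw [L_laminar G a _ _ rfl (by
      intro c d hcd hc hd
      have ne : ∀ c, (update (update (tri s) a 0) b 0) c ≠ 0 → c ≠ a ∧ c ≠ b := by
        intro c hc
        constructor
        · rintro rfl; rw [update_of_ne hab, update_self] at hc; exact hc rfl
        · rintro rfl; rw [update_self] at hc; exact hc rfl
      exact hlam c d (ne c hc).1 (ne c hc).2 (ne d hd).1 (ne d hd).2 hcd)]
    rw [Nat.add_sub_cancel_left]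
    have e1 : T (weight w s) = (∏ c, T (sgn (w c) * sgn (s c)) : ℤ[T;T⁻¹]) := by
      unfold weight
      exact T_sum _
    have e2 : dl ^ (univ.filter fun c => (update (update (tri s) a 0) b 0) c = 1).card =
        (∏ c, (if (update (update (tri s) a 0) b 0) c = 1 then dl else 1) : ℤ[T;T⁻¹]) := by
      rw [prod_ite, prod_const, prod_const_one, mul_one]
    rw [e1, e2, ← prod_mul_distrib]
    refine prod_congr rfl fun c _ => ?_
    by_cases hca : c = a
    · subst hca
      rw [update_of_ne hab, update_self]
      simp only [g, true_or, if_true]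
      rw [hs.1.2]
      simp [sgn]
    · by_cases hcb : c = b
      · subst hcb
        rw [update_self]
        simp only [g, or_true, if_true]
        rw [hs.2]
        simp [sgn]
      · rw [update_of_ne hcb, update_of_ne hca]
        simp only [g, hca, hcb, or_self, if_false]
        unfold tri
        cases s c <;> simp
  rw [h2, sum_congr rfl h3, ← prod_univ_sum] at h1
  have h4 : ∀ c, (∑ x ∈ (if c = a ∨ c = b then ({true} : Finset Bool) else univ), g c x) =
      ((-1) * (if c = a then -1 else 1) * (if c = b then -1 else 1)) *
        T (3 * sgn (w c) - (if c = a then 2 * sgn (w a) else 0) - (if c = b then 2 * sgn (w b) else 0)) := by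
    intro c
    by_cases hca : c = a
    · subst hca
      simp only [true_or, if_true, sum_singleton, g, if_neg hab]
      have : 3 * sgn (w c) - 2 * sgn (w c) - 0 = sgn (w c) := by ring
      rw [this]
      ring
    · by_cases hcb : c = b
      · subst hcb
        simp only [or_true, if_true, sum_singleton, g, if_neg hca]
        have : 3 * sgn (w c) - 0 - 2 * sgn (w c) = sgn (w c) := by ring
        rw [this]
        ring
      · simp only [hca, hcb, or_self, if_false, g, Fintype.sum_bool, if_true, sub_zero, mul_one]
        unfold dl
        cases w c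
        · simp only [sgn, if_true, Bool.false_eq_true, if_false]
          norm_num
          rw [sub_mul, neg_mul, ← T_add, ← T_add]
          norm_num
          ring
        · simp only [sgn, if_true, Bool.false_eq_true, if_false]
          norm_num
          rw [sub_mul, neg_mul, ← T_add, ← T_add]
          norm_num
  rw [prod_congr rfl (fun c _ => h4 c), prod_mul_distrib, prod_mul_distrib, prod_mul_distrib,
    ← T_sum, sum_sub_distrib, sum_sub_distrib] at h1
  simp only [prod_const, card_univ, Fintype.card_fin, prod_ite_eq', sum_ite_eq', mem_univ, if_true] at h1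
  have hs : sgn (w b) = - sgn (w a) := by
    cases h1 : w a <;> cases h2 : w b <;> simp [sgn, h1, h2] at hw ⊢
  have h5 : ∑ c, 3 * sgn (w c) - 2 * sgn (w a) - 2 * sgn (w b) = 3 * writhe w := by
    rw [hs, ← mul_sum]
    unfold writhe
    ring
  rw [h5] at h1
  have hpar : (if Even (writhe w) then (1 : ℤ[T;T⁻¹]) else -1) = (-1) ^ N := by
    by_cases he : Even (N : ℤ)
    · rw [if_pos ((writhe_parity w).2 he)]
      rw [Int.even_coe_nat] at he
      exact (he.neg_one_pow).symm
    · rw [if_neg (fun h => he ((writhe_parity w).1 h))]
      rw [Int.even_coe_nat, Nat.not_even_iff_odd] at he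
      exact (he.neg_one_pow).symm
  unfold fPoly
  rw [hpar, h1]
  have h6 : ((-1 : ℤ[T;T⁻¹]) ^ N) * (-1) ^ N = 1 := by
    rw [← mul_pow]; simp
  have h7 : (T (-3 * writhe w) * T (3 * writhe w) : ℤ[T;T⁻¹]) = 1 := by
    rw [← T_add]; simp
  calc _ = ((-1 : ℤ[T;T⁻¹]) ^ N * (-1) ^ N) * (T (-3 * writhe w) * T (3 * writhe w)) := by ring
    _ = 1 := by rw [h6, h7, one_mul]

end Pool.Agent.Q179.HS
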